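import Pool.Agent.Hhelper21.PSC.Late

/-!
# Tame words, and the dichotomy for three letters
-/

set_option autoImplicit false

namespace Pool.Agent.PSC

variable {α : Type*} [DecidableEq α]

/-- the blocks without the letter `c` are short -/
def Tame (c : α) (M : ℕ) (u : List α) : Prop :=
  ∀ z, z <:+: u → c ∉ z → z.length ≤ M * 2 ^ u.count c

theorem Tame.rev {c : α} {M : ℕ} {u : List α} (h : Tame c M u) : Tame c M u.reverse := by
  intro z hz hc
  have h1 : z.reverse <:+: u := by
    have := List.reverse_infix.2 hz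
    rwa [List.reverse_reverse] at this
  have h2 := h z.reverse h1 (by simpa using hc)
  rwa [List.length_reverse, ← List.count_reverse] at h2

theorem len_bound {c : α} {F : ℕ} (k : ℕ) {u : List α} (hk : u.count c = k)
    (h : ∀ z, z <:+: u → c ∉ z → z.length ≤ F) : u.length ≤ (k + 1) * (F + 1) := by
  induction k generalizing u with
  | zero =>
    have := h u List.infix_rfl (List.count_eq_zero.1 hk)
    linarith
  | succ k ih =>
    have hc : c ∈ u := List.count_pos_iff.1 (by omega)
    obtain ⟨p, R, hpR, hcR⟩ := last_split hc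
    have h1 : R.length ≤ F := h R ⟨p ++ [c], [], by rw [hpR]; simp⟩ hcR
    have h2 : p.count c = k := by
      rw [hpR, List.count_append, List.count_cons_self, List.count_eq_zero.2 hcR] at hk
      omega
    have h3 := ih h2 fun z hz hcz => h z (hz.trans ⟨[], c :: R, by rw [hpR]; simp⟩) hcz
    rw [hpR, List.length_append, List.length_cons]
    have : (k + 1 + 1) * (F + 1) = (k + 1) * (F + 1) + (F + 1) := by ring
    omega

theorem Tame.len {c : α} {M n : ℕ} {u : List α} (h : Tame c M u) (hn : u.count c ≤ n) :
    u.length ≤ (n + 1) * (M * 2 ^ n + 1) := by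
  refine (len_bound _ rfl h).trans ?_
  have h1 : 2 ^ u.count c ≤ 2 ^ n := Nat.pow_le_pow_right (by norm_num) hn
  have h2 : M * 2 ^ u.count c ≤ M * 2 ^ n := Nat.mul_le_mul_left _ h1
  exact Nat.mul_le_mul (by omega) (by omega)

theorem tame_suf {w : List α} {a b c : α} {M n β : ℕ} (hab : a ≠ b) (hac : a ≠ c) (hbc : b ≠ c)
    (hw : ∀ e ∈ w, e = a ∨ e = b ∨ e = c) (hcw : c ∈ w) (hM : 1 ≤ M)
    (hβ : (n + 1) * (M * 2 ^ n + 1) ≤ β)
    (hno : ∀ u, Reach w u → u.count c ≤ n → ¬ Op c a b u) {p x y : List α}
    (hr : Reach w (p ++ y ++ x ++ y)) (ht : Tame c M (p ++ y ++ x ++ y))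
    (hn : (p ++ y ++ x ++ y ++ x).count c ≤ n) :
    Tame c M (p ++ y ++ x ++ y ++ x) ∨ Late w c a b β (p ++ y ++ x ++ y ++ x) ∨
      Late w c b a β (p ++ y ++ x ++ y ++ x) := by
  have hrv : Reach w (p ++ y ++ x ++ y ++ x) := hr.tail (Step.suf p x y)
  have hxu : x <:+: p ++ y ++ x ++ y := ⟨p ++ y, y, rfl⟩
  obtain ⟨u, hu⟩ : ∃ u, u = p ++ y ++ x ++ y := ⟨_, rfl⟩
  rw [← hu] at hr ht hn hrv hxu ⊢
  have hcu : c ∈ u := (reach_infix hr).subset hcw
  obtain ⟨p', R, hpR, hcR⟩ := last_split hcu
  have hRu : R <:+: u := ⟨p' ++ [c], [], by rw [hpR]; simp⟩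
  have hpu : p' <:+: u := ⟨[], c :: R, by rw [hpR]; simp⟩
  by_cases hcx : c ∈ x
  · left
    intro z hz hcz
    obtain ⟨x1, x2, hx12, hcx1⟩ := List.eq_append_cons_of_mem hcx
    have hcount : u.count c + 1 ≤ (u ++ x).count c := by
      have : 1 ≤ x.count c := List.count_pos_iff.2 hcx
      rw [List.count_append]
      omega
    have hpow : M * 2 ^ (u.count c + 1) ≤ M * 2 ^ (u ++ x).count c :=
      Nat.mul_le_mul_left _ (Nat.pow_le_pow_right (by norm_num) hcount)
    have hpow2 : M * 2 ^ (u.count c + 1) = 2 * (M * 2 ^ u.count c) := by ring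
    have e1 : u ++ x = (u ++ x1) ++ c :: x2 := by rw [hx12]; simp
    have hx1u : x1 <:+: u := (show x1 <:+: x from ⟨[], c :: x2, by rw [hx12]; simp⟩).trans hxu
    have hx2u : x2 <:+: u := (show x2 <:+: x from ⟨x1 ++ [c], [], by rw [hx12]; simp⟩).trans hxu
    rw [e1] at hz
    rcases infix_split hz hcz with h1 | h1
    · have e2 : u ++ x1 = p' ++ c :: (R ++ x1) := by rw [hpR]; simp
      rw [e2] at h1
      rcases infix_split h1 hcz with h2 | h2
      · have := ht z (h2.trans hpu) hcz
        omega
      · have h3 := h2.length_le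
        rw [List.length_append] at h3
        have h4 := ht R hRu hcR
        have h5 := ht x1 hx1u hcx1
        omega
    · have := ht z (h1.trans hx2u) hcz
      omega
  · have hcv : (u ++ x).count c = u.count c := by
      rw [List.count_append, List.count_eq_zero.2 hcx, add_zero]
    have hcRx : c ∉ R ++ x := by
      intro h1
      rcases List.mem_append.1 h1 with h1 | h1
      · exact hcR h1
      · exact hcx h1
    have e1 : u ++ x = p' ++ c :: (R ++ x) := by rw [hpR]; simp
    by_cases hlen : (R ++ x).length ≤ M * 2 ^ u.count c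
    · left
      intro z hz hcz
      rw [hcv]
      rw [e1] at hz
      rcases infix_split hz hcz with h1 | h1
      · exact ht z (h1.trans hpu) hcz
      · exact h1.length_le.trans hlen
    · right
      push Not at hlen
      have hsuf : R ++ x <:+ u ++ x := ⟨p' ++ [c], by rw [e1]; simp⟩
      have hlet : ∀ e ∈ R ++ x, e = a ∨ e = b := by
        intro e he
        have h1 : e ∈ w := reach_mem hrv (hsuf.subset he)
        rcases hw e h1 with h | h | h
        · exact Or.inl h
        · exact Or.inr h
        · exact absurd (h ▸ he) hcRx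
      have hnot : ¬ (a ∈ R ++ x ∧ b ∈ R ++ x) := by
        rintro ⟨h1, h2⟩
        exact hno _ hrv hn ⟨R ++ x, [], hsuf, List.nil_prefix, hcRx, by simp, Or.inl h1, Or.inl h2⟩
      have hpos : 1 ≤ M * 2 ^ u.count c := Nat.mul_pos (by omega) (by positivity)
      have hulen : u.length ≤ β := (ht.len (by omega : u.count c ≤ n)).trans hβ
      -- the common conclusion
      have concl : ∀ g h : α, g ≠ c → h ≠ c → g ≠ h → (∀ e ∈ R ++ x, e = g) →
          Late w c g h β (u ++ x) := by
        intro g h hgc hhc hgh hg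
        have hrep : R ++ x = List.replicate (R ++ x).length g := List.eq_replicate_of_mem hg
        obtain ⟨i, hi⟩ : ∃ i, i = (R ++ x).length := ⟨_, rfl⟩
        rw [← hi] at hrep hlen
        rw [hrep] at e1
        refine ⟨p', [], [], i, by omega, ?_, ?_, ?_, ?_, by simp, ?_⟩
        · rw [e1]
          simp
        · intro h1
          have h2 : List.replicate i g <:+: u :=
            ((List.suffix_cons c (List.replicate i g)).isInfix.trans h1).trans hpu
          have h3 := ht _ h2 fun h => hgc (List.eq_of_mem_replicate h).symm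
          rw [List.length_replicate] at h3
          omega
        · rw [← e1]
          exact hrv
        · rw [List.nil_append, ← e1]
          exact hrv
        · have hhx : h ∉ x := fun h1 => hgh (hg h (List.mem_append_right _ h1)).symm
          rw [List.count_append (a := h), List.count_eq_zero.2 hhx, add_zero]
          have h1 : u.count h ≤ u.length := List.count_le_length
          have h2 : 1 ≤ 2 ^ (u ++ x).count c := Nat.one_le_two_pow
          calc u.count h ≤ 1 * β := by omega
            _ ≤ 2 ^ (u ++ x).count c * β := Nat.mul_le_mul_right _ h2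
      by_cases ha : a ∈ R ++ x
      · left
        refine concl a b hac hbc hab fun e he => ?_
        rcases hlet e he with h | h
        · exact h
        · exact absurd ⟨ha, h ▸ he⟩ hnot
      · right
        refine concl b a hbc hac hab.symm fun e he => ?_
        rcases hlet e he with h | h
        · exact absurd (h ▸ he) ha
        · exact h

/-- the invariant of the reachable words when no open word is reachable -/
def Inv (w : List α) (c a b : α) (M β : ℕ) (u : List α) : Prop :=
  Tame c M u ∨ Late w c a b β u ∨ Late w c b a β u ∨ Late w.reverse c a b β u.reverse ∨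
    Late w.reverse c b a β u.reverse

theorem inv_step {w : List α} {a b c : α} {M n β : ℕ} (hab : a ≠ b) (hac : a ≠ c) (hbc : b ≠ c)
    (hw : ∀ e ∈ w, e = a ∨ e = b ∨ e = c) (haw : a ∈ w) (hbw : b ∈ w) (hcw : c ∈ w) (hM : 1 ≤ M)
    (hβ : (n + 1) * (M * 2 ^ n + 1) ≤ β)
    (hno : ∀ u, Reach w u → u.count c ≤ n → ¬ Op c a b u) {u v : List α}
    (hr : Reach w u) (hI : Inv w c a b M β u) (hs : Step u v) (hn : v.count c ≤ n) :
    Inv w c a b M β v := by
  have hno2 : ∀ u, Reach w u → u.count c ≤ n → ¬ Op c b a u :=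
    fun u h1 h2 h3 => hno u h1 h2 h3.symm
  have hno3 : ∀ u, Reach w.reverse u → u.count c ≤ n → ¬ Op c a b u := by
    intro u h1 h2 h3
    have h4 : Reach w u.reverse := reach_rev' h1
    exact hno _ h4 (by rwa [List.count_reverse]) h3.rev
  have hno4 : ∀ u, Reach w.reverse u → u.count c ≤ n → ¬ Op c b a u :=
    fun u h1 h2 h3 => hno3 u h1 h2 h3.symm
  have hwr : ∀ e ∈ w.reverse, e = a ∨ e = b ∨ e = c := fun e he => hw e (List.mem_reverse.1 he)
  have hnr : v.reverse.count c ≤ n := by rwa [List.count_reverse]
  rcases hI with h | h | h | h | h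
  · cases hs with
    | suf p x y =>
      rcases tame_suf hab hac hbc hw hcw hM hβ hno hr h hn with h | h | h
      · exact Or.inl h
      · exact Or.inr (Or.inl h)
      · exact Or.inr (Or.inr (Or.inl h))
    | pre q x y =>
      have e1 : (y ++ x ++ y ++ q).reverse = q.reverse ++ y.reverse ++ x.reverse ++ y.reverse := by
        simp
      have e2 : (x ++ (y ++ x ++ y ++ q)).reverse =
          q.reverse ++ y.reverse ++ x.reverse ++ y.reverse ++ x.reverse := by
        simp
      have hr' : Reach w.reverse (q.reverse ++ y.reverse ++ x.reverse ++ y.reverse) := by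
        rw [← e1]
        exact reach_rev hr
      have ht' : Tame c M (q.reverse ++ y.reverse ++ x.reverse ++ y.reverse) := by
        rw [← e1]
        exact h.rev
      have hn' : (q.reverse ++ y.reverse ++ x.reverse ++ y.reverse ++ x.reverse).count c ≤ n := by
        rw [← e2]
        exact hnr
      rcases tame_suf hab hac hbc hwr (List.mem_reverse.2 hcw) hM hβ hno3 hr' ht' hn' with h | h | h
      · left
        have := h.rev
        rw [← e2, List.reverse_reverse] at this
        exact this
      · right; right; right; left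
        rw [e2]
        exact h
      · right; right; right; right
        rw [e2]
        exact h
  · exact Or.inr (Or.inl (late_step hac hbc hab hbw hno h hs hn))
  · exact Or.inr (Or.inr (Or.inl (late_step hbc hac hab.symm haw hno2 h hs hn)))
  · exact Or.inr (Or.inr (Or.inr (Or.inl
      (late_step hac hbc hab (List.mem_reverse.2 hbw) hno3 h hs.rev hnr))))
  · exact Or.inr (Or.inr (Or.inr (Or.inr
      (late_step hbc hac hab.symm (List.mem_reverse.2 haw) hno4 h hs.rev hnr))))

theorem inv_reach {w : List α} {a b c : α} {n β : ℕ} (hab : a ≠ b) (hac : a ≠ c) (hbc : b ≠ c)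
    (hw : ∀ e ∈ w, e = a ∨ e = b ∨ e = c) (haw : a ∈ w) (hbw : b ∈ w) (hcw : c ∈ w)
    (hβ : (n + 1) * (w.length * 2 ^ n + 1) ≤ β)
    (hno : ∀ u, Reach w u → u.count c ≤ n → ¬ Op c a b u) {u : List α} (hr : Reach w u)
    (hn : u.count c ≤ n) : Inv w c a b w.length β u := by
  have hM : 1 ≤ w.length := List.length_pos_of_mem hcw
  induction hr with
  | refl =>
    left
    intro z hz hc
    refine hz.length_le.trans ?_
    exact Nat.le_mul_of_pos_right _ (by positivity)
  | tail hr hs ih =>
    have h1 := count_le_of_infix hs.isInf c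
    exact inv_step hab hac hbc hw haw hbw hcw hM hβ hno hr (ih (h1.trans hn)) hs hn

theorem inv_bound {w : List α} {a b c : α} {M n β : ℕ} (hβ : (n + 1) * (M * 2 ^ n + 1) ≤ β)
    {u : List α} (hI : Inv w c a b M β u) (hn : u.count c ≤ n) :
    u.count a ≤ 2 ^ n * β ∨ u.count b ≤ 2 ^ n * β := by
  have h1 : ∀ k, k ≤ n → 2 ^ k * β ≤ 2 ^ n * β := fun k hk =>
    Nat.mul_le_mul_right _ (Nat.pow_le_pow_right (by norm_num) hk)
  rcases hI with h | h | h | h | h
  · left
    have h2 := h.len hn
    have h3 : u.count a ≤ u.length := List.count_le_length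
    have h4 := h1 0 (Nat.zero_le _)
    simp only [pow_zero, one_mul] at h4
    omega
  · right
    obtain ⟨s0, l, r, i, -, -, -, -, -, -, h⟩ := h
    exact h.trans (h1 _ hn)
  · left
    obtain ⟨s0, l, r, i, -, -, -, -, -, -, h⟩ := h
    exact h.trans (h1 _ hn)
  · right
    obtain ⟨s0, l, r, i, -, -, -, -, -, -, h⟩ := h
    rw [List.count_reverse, List.count_reverse] at h
    exact h.trans (h1 _ hn)
  · left
    obtain ⟨s0, l, r, i, -, -, -, -, -, -, h⟩ := h
    rw [List.count_reverse, List.count_reverse] at h
    exact h.trans (h1 _ hn)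

/-- the dichotomy for the fibres of the Parikh image over three letters -/
theorem fibre {w : List α} {a b c : α} (hab : a ≠ b) (hac : a ≠ c) (hbc : b ≠ c)
    (hw : ∀ e ∈ w, e = a ∨ e = b ∨ e = c) (haw : a ∈ w) (hbw : b ∈ w) (hcw : c ∈ w) (n : ℕ) :
    ∃ M, (∀ v : α → ℕ, v c = n → M ≤ v a → M ≤ v b → (∀ e, e ∉ w → v e = 0) → v ∈ PI w) ∨
      (∀ v ∈ PI w, v c = n → v a ≤ M ∨ v b ≤ M) := by
  by_cases hop : ∃ u, Reach w u ∧ u.count c ≤ n ∧ Op c a b u
  · obtain ⟨u, hu, hun, ho⟩ := hop
    obtain ⟨u', hu', ⟨r, l, h1, h2, h3, h4, h5, h6⟩, hcn⟩ :=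
      open_extend hu ho ((reach_infix hu).subset hcw) hun
    obtain ⟨k, hk0, hk⟩ := open_full hu' h1 h2
    refine ⟨u'.count a + k a + u'.count b + k b, Or.inl fun v hvc hva hvb hv0 => ?_⟩
    obtain ⟨t, ht, htc⟩ := hk (fun e => if e = a then v a - (u'.count a + k a) else
      if e = b then v b - (u'.count b + k b) else 0) (fun e he => by
        by_cases hea : e = a
        · subst hea
          exact h5
        · by_cases heb : e = b
          · subst heb
            exact h6
          · simp [hea, heb] at he)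
    refine ⟨t, ht, ?_⟩
    funext e
    show t.count e = v e
    rw [htc e]
    by_cases hew : e ∈ w
    · rcases hw e hew with rfl | rfl | rfl
      · simp only [if_true]
        omega
      · simp only [hab.symm, if_false, if_true]
        omega
      · simp only [hac.symm, hbc.symm, if_false]
        rw [hk0 e h3 h4, hcn, hvc]
        rfl
    · have h7 : e ∉ u' := fun h => hew (reach_mem hu' h)
      have hea : e ≠ a := fun h => hew (h ▸ haw)
      have heb : e ≠ b := fun h => hew (h ▸ hbw)
      simp only [hea, heb, if_false]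
      rw [hv0 e hew, List.count_eq_zero.2 h7,
        hk0 e (fun h => h7 (h1.subset h)) (fun h => h7 (h2.subset h))]
  · push Not at hop
    refine ⟨2 ^ n * ((n + 1) * (w.length * 2 ^ n + 1)), Or.inr ?_⟩
    rintro v ⟨u, hu, rfl⟩ hvc
    have hvc' : u.count c = n := hvc
    have hI := inv_reach hab hac hbc hw haw hbw hcw le_rfl hop hu hvc'.le
    exact inv_bound le_rfl hI hvc'.le

end Pool.Agent.PSC
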