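import Pool.Agent.Hhelper21.PSC.Unary
import Pool.Agent.Hhelper21.PSC.Tame

/-!
# Alphabets with at most three letters
-/

set_option autoImplicit false

namespace Pool.Agent.PSC

variable {α : Type*} [DecidableEq α]

theorem PI_off {w : List α} {v : α → ℕ} (hv : v ∈ PI w) {e : α} (he : e ∉ w) : v e = 0 := by
  obtain ⟨u, hu, rfl⟩ := hv
  exact List.count_eq_zero.2 fun h => he (reach_mem hu h)

variable [Fintype α]

omit [DecidableEq α] in
theorem semi_eq (e : α) (k : ℕ) : IsSemilinearSet {v : α → ℕ | v e = k} :=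
  (IsSemilinearSet.singleton k).preimage (Pi.evalAddMonoidHom (fun _ : α => ℕ) e)

omit [DecidableEq α] in
theorem semi_lt (e : α) (k : ℕ) : IsSemilinearSet {v : α → ℕ | v e < k} := by
  have e1 : {v : α → ℕ | v e < k} = ⋃ j ∈ Finset.range k, {v : α → ℕ | v e = j} := by
    ext v
    simp
  rw [e1]
  exact IsSemilinearSet.biUnion_finset fun j _ => semi_eq e j

omit [DecidableEq α] in
theorem semi_ge (e : α) (k : ℕ) : IsSemilinearSet {v : α → ℕ | k ≤ v e} := by
  have e1 : {v : α → ℕ | k ≤ v e} = {v : α → ℕ | v e < k}ᶜ := by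
    ext v
    simp
  rw [e1]
  exact (semi_lt e k).compl

omit [DecidableEq α] in
theorem semi_off (P : Set α) : IsSemilinearSet {v : α → ℕ | ∀ e ∈ P, v e = 0} := by
  have e1 : {v : α → ℕ | ∀ e ∈ P, v e = 0} = ⋂ e ∈ P, {v : α → ℕ | v e = 0} := by
    ext v
    simp
  rw [e1]
  exact IsSemilinearSet.biInter P.toFinite fun e _ => semi_eq e 0

theorem semi_low {w : List α} {a b c : α} (hw : ∀ e ∈ w, e = a ∨ e = b ∨ e = c) (n M : ℕ) :
    IsSemilinearSet {v ∈ PI w | v c = n ∧ v a ≤ M} := by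
  by_cases hbc : b = c
  · -- the letter `b` is not needed
    have e1 : {v ∈ PI w | v c = n ∧ v a ≤ M} =
        {v ∈ PI w | ∀ e, e ≠ b → v e ≤ M} ∩ ({v | v c = n} ∩ {v | v a < M + 1}) := by
      ext v
      constructor
      · rintro ⟨h1, h2, h3⟩
        refine ⟨⟨h1, fun e he => ?_⟩, h2, Nat.lt_succ_of_le h3⟩
        by_cases hew : e ∈ w
        · rcases hw e hew with rfl | h | h
          · exact h3
          · exact absurd h he
          · exact absurd (h.trans hbc.symm) he
        · rw [PI_off h1 hew]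
          exact Nat.zero_le _
      · rintro ⟨⟨h1, -⟩, h2, h3⟩
        exact ⟨h1, h2, Nat.le_of_lt_succ h3⟩
    rw [e1]
    exact (strip_semilinear w b M).inter ((semi_eq c n).inter (semi_lt a (M + 1)))
  · have e1 : {v ∈ PI w | v c = n ∧ v a ≤ M} =
        {v ∈ PI w | ∀ e, e ≠ b → v e ≤ n + M} ∩ ({v | v c = n} ∩ {v | v a < M + 1}) := by
      ext v
      constructor
      · rintro ⟨h1, h2, h3⟩
        refine ⟨⟨h1, fun e he => ?_⟩, h2, Nat.lt_succ_of_le h3⟩
        by_cases hew : e ∈ w
        · rcases hw e hew with rfl | h | rfl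
          · omega
          · exact absurd h he
          · omega
        · rw [PI_off h1 hew]
          exact Nat.zero_le _
      · rintro ⟨⟨h1, -⟩, h2, h3⟩
        exact ⟨h1, h2, Nat.le_of_lt_succ h3⟩
    rw [e1]
    exact (strip_semilinear w b (n + M)).inter ((semi_eq c n).inter (semi_lt a (M + 1)))

theorem semi_fibre {w : List α} {a b c : α} (hab : a ≠ b) (hac : a ≠ c) (hbc : b ≠ c)
    (hw : ∀ e ∈ w, e = a ∨ e = b ∨ e = c) (haw : a ∈ w) (hbw : b ∈ w) (hcw : c ∈ w) (n : ℕ) :
    IsSemilinearSet {v ∈ PI w | v c = n} := by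
  have hw' : ∀ e ∈ w, e = b ∨ e = a ∨ e = c := fun e he => by
    rcases hw e he with h | h | h
    · exact Or.inr (Or.inl h)
    · exact Or.inl h
    · exact Or.inr (Or.inr h)
  obtain ⟨M, h | h⟩ := fibre hab hac hbc hw haw hbw hcw n
  · have e1 : {v ∈ PI w | v c = n} = (({v : α → ℕ | v c = n} ∩ {v : α → ℕ | M ≤ v a}) ∩
        ({v : α → ℕ | M ≤ v b} ∩ {v : α → ℕ | ∀ e ∈ {e | e ∉ w}, v e = 0})) ∪
        ({v ∈ PI w | v c = n ∧ v a ≤ M} ∪ {v ∈ PI w | v c = n ∧ v b ≤ M}) := by
      ext v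
      constructor
      · rintro ⟨h1, h2⟩
        by_cases h3 : v a ≤ M
        · exact Or.inr (Or.inl ⟨h1, h2, h3⟩)
        · by_cases h4 : v b ≤ M
          · exact Or.inr (Or.inr ⟨h1, h2, h4⟩)
          · push Not at h3 h4
            exact Or.inl ⟨⟨h2, h3.le⟩, h4.le, fun e he => PI_off h1 he⟩
      · rintro (⟨⟨h1, h2⟩, h3, h4⟩ | ⟨h1, h2, -⟩ | ⟨h1, h2, -⟩)
        · exact ⟨h v h1 h2 h3 h4, h1⟩
        · exact ⟨h1, h2⟩
        · exact ⟨h1, h2⟩
    rw [e1]
    exact (((semi_eq c n).inter (semi_ge a M)).inter ((semi_ge b M).inter (semi_off _))).union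
      ((semi_low hw n M).union (semi_low hw' n M))
  · have e1 : {v ∈ PI w | v c = n} =
        {v ∈ PI w | v c = n ∧ v a ≤ M} ∪ {v ∈ PI w | v c = n ∧ v b ≤ M} := by
      ext v
      constructor
      · rintro ⟨h1, h2⟩
        rcases h v h1 h2 with h3 | h3
        · exact Or.inl ⟨h1, h2, h3⟩
        · exact Or.inr ⟨h1, h2, h3⟩
      · rintro (⟨h1, h2, -⟩ | ⟨h1, h2, -⟩)
        · exact ⟨h1, h2⟩
        · exact ⟨h1, h2⟩
    rw [e1]
    exact (semi_low hw n M).union (semi_low hw' n M)

theorem semi_strip {w : List α} {c : α} (h : ∀ n, IsSemilinearSet {v ∈ PI w | v c = n}) (N : ℕ) :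
    IsSemilinearSet {v ∈ PI w | v c < N} := by
  have e1 : {v ∈ PI w | v c < N} = ⋃ n ∈ Finset.range N, {v ∈ PI w | v c = n} := by
    ext v
    simp only [Set.mem_iUnion, Finset.mem_range, exists_prop]
    constructor
    · rintro ⟨h1, h2⟩
      exact ⟨v c, h2, h1, rfl⟩
    · rintro ⟨n, h1, h2, h3⟩
      exact ⟨h2, h3 ▸ h1⟩
  rw [e1]
  exact IsSemilinearSet.biUnion_finset fun n _ => h n

theorem semi_three {w : List α} {a b c : α} (hab : a ≠ b) (hac : a ≠ c) (hbc : b ≠ c)
    (hw : ∀ e ∈ w, e = a ∨ e = b ∨ e = c) (haw : a ∈ w) (hbw : b ∈ w) (hcw : c ∈ w) :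
    IsSemilinearSet (PI w) := by
  obtain ⟨u0, hu0⟩ := full_orthant w
  obtain ⟨N, hN⟩ : ∃ N, N = u0 a + u0 b + u0 c := ⟨_, rfl⟩
  have e1 : PI w = (({v : α → ℕ | N ≤ v a} ∩ {v : α → ℕ | N ≤ v b}) ∩
      ({v : α → ℕ | N ≤ v c} ∩ {v : α → ℕ | ∀ e ∈ {e | e ∉ w}, v e = 0})) ∪
      ({v ∈ PI w | v a < N} ∪ ({v ∈ PI w | v b < N} ∪ {v ∈ PI w | v c < N})) := by
    ext v
    constructor
    · intro h1
      by_cases h2 : v a < N
      · exact Or.inr (Or.inl ⟨h1, h2⟩)
      · by_cases h3 : v b < N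
        · exact Or.inr (Or.inr (Or.inl ⟨h1, h3⟩))
        · by_cases h4 : v c < N
          · exact Or.inr (Or.inr (Or.inr ⟨h1, h4⟩))
          · push Not at h2 h3 h4
            exact Or.inl ⟨⟨h2, h3⟩, h4, fun e he => PI_off h1 he⟩
    · rintro (⟨⟨h1, h2⟩, h3, h4⟩ | ⟨h1, -⟩ | ⟨h1, -⟩ | ⟨h1, -⟩)
      · refine hu0 v (fun e => ?_) h4
        by_cases he : e ∈ w
        · left
          rcases hw e he with rfl | rfl | rfl
          · have : N ≤ v e := h1
            omega
          · have : N ≤ v e := h2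
            omega
          · have : N ≤ v e := h3
            omega
        · exact Or.inr he
      · exact h1
      · exact h1
      · exact h1
  rw [e1]
  have ha : ∀ e ∈ w, e = b ∨ e = c ∨ e = a := fun e he => by
    rcases hw e he with h | h | h
    · exact Or.inr (Or.inr h)
    · exact Or.inl h
    · exact Or.inr (Or.inl h)
  have hb : ∀ e ∈ w, e = a ∨ e = c ∨ e = b := fun e he => by
    rcases hw e he with h | h | h
    · exact Or.inl h
    · exact Or.inr (Or.inr h)
    · exact Or.inr (Or.inl h)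
  exact (((semi_ge a N).inter (semi_ge b N)).inter ((semi_ge c N).inter (semi_off _))).union
    ((semi_strip (semi_fibre hbc hab.symm hac.symm ha hbw hcw haw) N).union
      ((semi_strip (semi_fibre hac hab hbc.symm hb haw hcw hbw) N).union
        (semi_strip (semi_fibre hab hac hbc hw haw hbw hcw) N)))

theorem semi_two {w : List α} {a b : α} (hw : ∀ e ∈ w, e = a ∨ e = b) :
    IsSemilinearSet (PI w) := by
  obtain ⟨u0, hu0⟩ := full_orthant w
  obtain ⟨N, hN⟩ : ∃ N, N = u0 a + u0 b := ⟨_, rfl⟩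
  have e1 : PI w = (({v : α → ℕ | N ≤ v a} ∩ {v : α → ℕ | N ≤ v b}) ∩
      {v : α → ℕ | ∀ e ∈ {e | e ∉ w}, v e = 0}) ∪
      ({v ∈ PI w | ∀ e, e ≠ b → v e ≤ N} ∪ {v ∈ PI w | ∀ e, e ≠ a → v e ≤ N}) := by
    ext v
    constructor
    · intro h1
      by_cases h2 : v a ≤ N
      · refine Or.inr (Or.inl ⟨h1, fun e he => ?_⟩)
        by_cases hew : e ∈ w
        · rcases hw e hew with rfl | h
          · exact h2
          · exact absurd h he
        · rw [PI_off h1 hew]
          exact Nat.zero_le _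
      · by_cases h3 : v b ≤ N
        · refine Or.inr (Or.inr ⟨h1, fun e he => ?_⟩)
          by_cases hew : e ∈ w
          · rcases hw e hew with h | rfl
            · exact absurd h he
            · exact h3
          · rw [PI_off h1 hew]
            exact Nat.zero_le _
        · push Not at h2 h3
          exact Or.inl ⟨⟨h2.le, h3.le⟩, fun e he => PI_off h1 he⟩
    · rintro (⟨⟨h1, h2⟩, h4⟩ | ⟨h1, -⟩ | ⟨h1, -⟩)
      · refine hu0 v (fun e => ?_) h4
        by_cases he : e ∈ w
        · left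
          rcases hw e he with rfl | rfl
          · have : N ≤ v e := h1
            omega
          · have : N ≤ v e := h2
            omega
        · exact Or.inr he
      · exact h1
      · exact h1
  rw [e1]
  exact (((semi_ge a N).inter (semi_ge b N)).inter (semi_off _)).union
    ((strip_semilinear w b N).union (strip_semilinear w a N))

theorem PI_nil : PI ([] : List α) = {0} := by
  ext v
  constructor
  · intro hv
    rw [Set.mem_singleton_iff]
    funext e
    exact PI_off hv (by simp)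
  · intro hv
    rw [Set.mem_singleton_iff] at hv
    refine ⟨[], Relation.ReflTransGen.refl, ?_⟩
    rw [hv]
    funext e
    simp [parikh]

/-- alphabets with at most three letters -/
theorem semi_le_three (w : List α) (h : w.toFinset.card ≤ 3) : IsSemilinearSet (PI w) := by
  have hmem : ∀ e, e ∈ w ↔ e ∈ w.toFinset := fun e => List.mem_toFinset.symm
  have hcases : w.toFinset.card = 0 ∨ w.toFinset.card = 1 ∨ w.toFinset.card = 2 ∨
      w.toFinset.card = 3 := by omega
  rcases hcases with h | h | h | h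
  · rw [Finset.card_eq_zero, List.toFinset_eq_empty_iff] at h
    rw [h, PI_nil]
    exact IsSemilinearSet.singleton 0
  · obtain ⟨a, ha⟩ := Finset.card_eq_one.1 h
    refine semi_two (a := a) (b := a) fun e he => ?_
    rw [hmem, ha, Finset.mem_singleton] at he
    exact Or.inl he
  · obtain ⟨a, b, -, ha⟩ := Finset.card_eq_two.1 h
    refine semi_two (a := a) (b := b) fun e he => ?_
    rw [hmem, ha, Finset.mem_insert, Finset.mem_singleton] at he
    exact he
  · obtain ⟨a, b, c, hab, hac, hbc, ha⟩ := Finset.card_eq_three.1 h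
    refine semi_three hab hac hbc (fun e he => ?_) ?_ ?_ ?_
    · rw [hmem, ha, Finset.mem_insert, Finset.mem_insert, Finset.mem_singleton] at he
      exact he
    · rw [hmem, ha]
      simp
    · rw [hmem, ha]
      simp
    · rw [hmem, ha]
      simp

end Pool.Agent.PSC
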