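import Mathlib

/-!
# Words as sequences of blocks of one letter `b`

`W b s μ = b^{μ 0} s₁ b^{μ 1} s₂ ⋯ s_k b^{μ k}`.
-/

set_option autoImplicit false

namespace Pool.Agent.PSC

variable {α : Type*}

/-- the word with skeleton `s` and blocks `μ` -/
def W (b : α) : List α → (ℕ → ℕ) → List α
  | [], μ => List.replicate (μ 0) b
  | a :: s, μ => List.replicate (μ 0) b ++ a :: W b s (fun i => μ (i + 1))

/-- gluing of two sequences of blocks -/
def glue (k : ℕ) (μ ν : ℕ → ℕ) (i : ℕ) : ℕ := (if i ≤ k then μ i else 0) + (if k ≤ i then ν (i - k) else 0)

theorem W_congr (b : α) (s : List α) : ∀ {μ ν : ℕ → ℕ}, (∀ i, i ≤ s.length → μ i = ν i) →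
    W b s μ = W b s ν := by
  induction s with
  | nil => intro μ ν h; simp [W, h 0 le_rfl]
  | cons a s ih =>
    intro μ ν h
    rw [W, W, h 0 (Nat.zero_le _), ih fun i hi => h (i + 1) (by simpa using hi)]

theorem W_append (b : α) (s t : List α) : ∀ (μ ν : ℕ → ℕ),
    W b s μ ++ W b t ν = W b (s ++ t) (glue s.length μ ν) := by
  induction s with
  | nil =>
    intro μ ν
    cases t with
    | nil => simp [W, glue, List.replicate_append_replicate]
    | cons c t =>
      simp only [W, List.nil_append, List.length_nil, glue, Nat.le_zero, Nat.zero_le, if_true,
        Nat.sub_zero, ← List.append_assoc, List.replicate_append_replicate]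
      congr 2
      apply W_congr
      intro i _
      simp
  | cons a s ih =>
    intro μ ν
    simp only [W, List.cons_append, List.append_assoc, List.length_cons]
    rw [ih]
    have h0 : glue (s.length + 1) μ ν 0 = μ 0 := by simp [glue]
    rw [h0]
    congr 2
    apply W_congr
    intro i _
    simp [glue]

theorem W_inj (b : α) (s : List α) : ∀ {t : List α} {μ ν : ℕ → ℕ}, (∀ a ∈ s, a ≠ b) →
    (∀ a ∈ t, a ≠ b) → W b s μ = W b t ν → s = t ∧ ∀ i, i ≤ s.length → μ i = ν i := by
  have key : ∀ (m n : ℕ) (u v : List α) (x y : α), x ≠ b → y ≠ b →
      List.replicate m b ++ x :: u = List.replicate n b ++ y :: v → m = n ∧ x = y ∧ u = v := by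
    intro m
    induction m with
    | zero =>
      intro n u v x y hx hy h
      cases n with
      | zero => simpa using h
      | succ n =>
        rw [List.replicate_succ] at h
        simp only [List.replicate_zero, List.nil_append, List.cons_append, List.cons.injEq] at h
        exact (hx h.1).elim
    | succ m ih =>
      intro n u v x y hx hy h
      cases n with
      | zero =>
        rw [List.replicate_succ] at h
        simp only [List.replicate_zero, List.nil_append, List.cons_append, List.cons.injEq] at h
        exact (hy h.1.symm).elim
      | succ n =>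
        rw [List.replicate_succ, List.replicate_succ, List.cons_append, List.cons_append,
          List.cons.injEq] at h
        obtain ⟨h1, h2⟩ := ih n u v x y hx hy h.2
        exact ⟨by rw [h1], h2⟩
  have key2 : ∀ (m n : ℕ) (u : List α) (x : α), x ≠ b →
      List.replicate m b ++ x :: u ≠ List.replicate n b := by
    intro m n u x hx h
    have : x ∈ List.replicate n b := by rw [← h]; simp
    exact hx (List.eq_of_mem_replicate this)
  induction s with
  | nil =>
    intro t μ ν hs ht h
    cases t with
    | nil =>
      simp only [W] at h
      refine ⟨rfl, fun i hi => ?_⟩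
      have : i = 0 := by simpa using hi
      subst this
      simpa using congrArg List.length h
    | cons c t =>
      simp only [W] at h
      exact (key2 _ _ _ _ (ht c (by simp)) h.symm).elim
  | cons a s ih =>
    intro t μ ν hs ht h
    cases t with
    | nil =>
      simp only [W] at h
      exact (key2 _ _ _ _ (hs a (by simp)) h).elim
    | cons c t =>
      simp only [W] at h
      obtain ⟨h1, h2, h3⟩ := key _ _ _ _ _ _ (hs a (by simp)) (ht c (by simp)) h
      obtain ⟨h4, h5⟩ := ih (fun x hx => hs x (by simp [hx])) (fun x hx => ht x (by simp [hx])) h3
      subst h2 h4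
      refine ⟨rfl, fun i hi => ?_⟩
      cases i with
      | zero => exact h1
      | succ i => exact h5 i (by simpa using hi)

/-- every word is of the form `W b s μ` -/
theorem exists_W [DecidableEq α] (b : α) (u : List α) :
    ∃ μ : ℕ → ℕ, W b (u.filter fun a => !decide (a = b)) μ = u := by
  induction u with
  | nil => exact ⟨fun _ => 0, rfl⟩
  | cons a u ih =>
    obtain ⟨μ, hμ⟩ := ih
    by_cases hab : a = b
    · subst hab
      refine ⟨fun i => if i = 0 then μ 0 + 1 else μ i, ?_⟩
      have e : (a :: u).filter (fun x => !decide (x = a)) = u.filter (fun x => !decide (x = a)) := by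
        simp
      rw [e]
      cases hf : u.filter (fun x => !decide (x = a)) with
      | nil =>
        rw [hf] at hμ
        simp only [W] at hμ
        simp only [W, if_true, List.replicate_succ]
        rw [hμ]
      | cons c t =>
        rw [hf] at hμ
        simp only [W] at hμ
        simp only [W, if_true, List.replicate_succ, List.cons_append]
        conv_rhs => rw [← hμ]
        congr 3
    · refine ⟨fun i => if i = 0 then 0 else μ (i - 1), ?_⟩
      have e : (a :: u).filter (fun x => !decide (x = b)) =
          a :: u.filter (fun x => !decide (x = b)) := by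
        simp [hab]
      rw [e]
      simp only [W, if_true, List.replicate_zero, List.nil_append]
      conv_rhs => rw [← hμ]
      congr 1

theorem filter_W [DecidableEq α] (b : α) (s : List α) : ∀ (μ : ℕ → ℕ), (∀ a ∈ s, a ≠ b) →
    (W b s μ).filter (fun a => !decide (a = b)) = s := by
  induction s with
  | nil => intro μ _; simp [W]
  | cons a s ih =>
    intro μ hs
    rw [W, List.filter_append, List.filter_cons, ih _ fun x hx => hs x (by simp [hx])]
    simp [hs a (by simp)]

theorem count_W [DecidableEq α] (b : α) (s : List α) : ∀ (μ : ℕ → ℕ), (∀ a ∈ s, a ≠ b) →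
    ∀ a, (W b s μ).count a = if a = b then ∑ i ∈ Finset.range (s.length + 1), μ i
      else s.count a := by
  induction s with
  | nil =>
    intro μ _ a
    simp only [W, List.count_replicate, List.length_nil, zero_add, Finset.range_one,
      Finset.sum_singleton, List.count_nil]
    by_cases h : a = b
    · subst h; simp
    · have : ¬ b = a := fun h' => h h'.symm
      simp [h, this]
  | cons c s ih =>
    intro μ hs a
    rw [W, List.count_append, List.count_cons, ih _ (fun x hx => hs x (by simp [hx])),
      List.count_replicate, List.count_cons, List.length_cons]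
    have hc : c ≠ b := hs c (by simp)
    have hsum := Finset.sum_range_succ' μ (s.length + 1)
    by_cases h : a = b
    · subst h
      have hc' : ¬ c = a := hc
      simp only [beq_self_eq_true, if_true, beq_iff_eq, hc', if_false, hsum]
      omega
    · have : ¬ b = a := fun h' => h h'.symm
      simp [h, this]

end Pool.Agent.PSC
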