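import Mathlib

/-!
# Prefix-suffix square completion: definitions and the growth lemma

`Step u v`: `v` is obtained from `u` by one suffix-square completion or one prefix-square completion.
`Reach w u`: `u` is obtained from `w` by finitely many completions.
-/

set_option autoImplicit false

namespace Pool.Agent.PSC

variable {α : Type*}

/-- one prefix- or suffix-square completion: a word which ends with `y x y` may be extended by `x` on
the right, a word which begins with `y x y` may be extended by `x` on the left -/
inductive Step : List α → List α → Prop
  | suf (p x y : List α) : Step (p ++ y ++ x ++ y) (p ++ y ++ x ++ y ++ x)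
  | pre (q x y : List α) : Step (y ++ x ++ y ++ q) (x ++ (y ++ x ++ y ++ q))

/-- finitely many completions -/
abbrev Reach (w u : List α) : Prop := Relation.ReflTransGen Step w u

/-- the language `L(w)` -/
def Lang (w : List α) : Set (List α) := {u | Reach w u}

/-- the Parikh vector of a word -/
def parikh [DecidableEq α] (u : List α) : α → ℕ := fun a => u.count a

/-- the Parikh image of `L(w)` -/
def PI [DecidableEq α] (w : List α) : Set (α → ℕ) := {v | ∃ u, Reach w u ∧ parikh u = v}

/-! ## one-sided steps -/

/-- completions on the right -/
abbrev RReach (w u : List α) : Prop :=
  Relation.ReflTransGen (fun u v => ∃ p x y : List α, u = p ++ y ++ x ++ y ∧ v = u ++ x) w u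

theorem RReach.reach {w u : List α} (h : RReach w u) : Reach w u := by
  induction h with
  | refl => exact Relation.ReflTransGen.refl
  | tail _ h ih =>
    obtain ⟨p, x, y, rfl, rfl⟩ := h
    exact ih.tail (Step.suf p x y)

theorem RReach.frame {w u : List α} (h : RReach w u) (q : List α) : RReach (q ++ w) (q ++ u) := by
  induction h with
  | refl => exact Relation.ReflTransGen.refl
  | tail _ h ih =>
    obtain ⟨p, x, y, rfl, rfl⟩ := h
    refine ih.tail ⟨q ++ p, x, y, ?_, ?_⟩ <;> simp [List.append_assoc]

theorem rreach_one (p x y : List α) : RReach (p ++ y ++ x ++ y) (p ++ y ++ x ++ y ++ x) :=
  Relation.ReflTransGen.single ⟨p, x, y, rfl, rfl⟩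

/-- doubling a suffix -/
theorem rreach_dup (p x : List α) : RReach (p ++ x) (p ++ x ++ x) := by
  have := rreach_one p x []
  simpa using this

theorem rreach_pump (p : List α) (c : α) (m : ℕ) :
    RReach (p ++ [c]) (p ++ [c] ++ List.replicate m c) := by
  induction m with
  | zero => simpa using Relation.ReflTransGen.refl
  | succ m ih =>
    refine ih.trans ?_
    have h := rreach_dup (p ++ List.replicate m c) [c]
    have e1 : p ++ [c] ++ List.replicate m c = p ++ List.replicate m c ++ [c] := by
      rw [List.append_assoc, List.append_assoc]
      congr 1
      rw [List.singleton_append, ← List.replicate_succ, List.replicate_succ']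
    have e2 : p ++ [c] ++ List.replicate (m + 1) c = p ++ List.replicate m c ++ [c] ++ [c] := by
      rw [← e1, List.replicate_succ']
      simp [List.append_assoc]
    rw [e1, e2]
    exact h

variable [DecidableEq α]

/-- from a word with suffix `z` all large Parikh vectors over the letters of `z` are obtained by
completions on the right -/
theorem grow_right (z : List α) : ∃ k : α → ℕ, ∀ v : α → ℕ, (∀ a, a ∉ z → v a = 0) →
    ∃ g : List α, RReach z (z ++ g) ∧ ∀ a, g.count a = k a + v a := by
  induction z with
  | nil =>
    refine ⟨fun _ => 0, fun v hv => ⟨[], Relation.ReflTransGen.refl, fun a => ?_⟩⟩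
    simp [hv a (by simp)]
  | cons c z ih =>
    obtain ⟨k, hk⟩ := ih
    by_cases hc : c ∈ z
    · refine ⟨k, fun v hv => ?_⟩
      obtain ⟨g, hg, hg'⟩ := hk v fun a ha => hv a fun h => by
        rcases List.mem_cons.1 h with rfl | h
        · exact ha hc
        · exact ha h
      exact ⟨g, hg.frame [c], hg'⟩
    · refine ⟨fun a => if a = c then 2 else 3 * z.count a + k a, fun v hv => ?_⟩
      obtain ⟨g, hg, hg'⟩ := hk (fun a => if a = c then 0 else v a) fun a ha => by
        by_cases hac : a = c
        · simp [hac]
        · simp only [hac, if_false]
          exact hv a fun h => by
            rcases List.mem_cons.1 h with rfl | h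
            · exact hac rfl
            · exact ha h
      set m := v c / 2 with hm
      set m' := v c / 2 + v c % 2 with hm'
      have hmm : m' = m ∨ m' = m + 1 := by omega
      have h1 : RReach (c :: z) (c :: z ++ (c :: z)) := rreach_dup [] (c :: z)
      have h2 : RReach (c :: z ++ (c :: z)) (c :: z ++ (c :: z) ++ [c]) := by
        have := rreach_one [c] [c] z
        simpa [List.append_assoc] using this
      have h3 : RReach (c :: z ++ (c :: z) ++ [c])
          (c :: z ++ (c :: z) ++ [c] ++ List.replicate m c) := rreach_pump _ c m
      have h4 : RReach (c :: z ++ (c :: z) ++ [c] ++ List.replicate m c)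
          (c :: z ++ (c :: z) ++ [c] ++ List.replicate m c ++ (z ++ List.replicate m' c)) := by
        rcases hmm with h | h
        · rw [h]
          have := rreach_one (c :: z) (z ++ List.replicate m c) [c]
          have e : c :: z ++ [c] ++ (z ++ List.replicate m c) ++ [c] =
              c :: z ++ (c :: z) ++ [c] ++ List.replicate m c := by
            simp only [List.append_assoc, List.cons_append, List.singleton_append, List.nil_append]
            congr 4
            rw [← List.replicate_succ, List.replicate_succ']
          rw [e] at this
          exact this
        · rw [h]
          have := rreach_dup (c :: z ++ [c]) (z ++ List.replicate (m + 1) c)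
          have e : c :: z ++ [c] ++ (z ++ List.replicate (m + 1) c) =
              c :: z ++ (c :: z) ++ [c] ++ List.replicate m c := by
            simp only [List.append_assoc, List.cons_append, List.nil_append,
              List.replicate_succ]
          rw [e] at this
          exact this
      have h5 : RReach
          (c :: z ++ (c :: z) ++ [c] ++ List.replicate m c ++ (z ++ List.replicate m' c))
          (c :: z ++ (c :: z) ++ [c] ++ List.replicate m c ++ (z ++ List.replicate m' c) ++ z) := by
        rcases hmm with h | h
        · have := rreach_one (c :: z ++ (c :: z) ++ [c]) z (List.replicate m c)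
          rw [h]
          simpa [List.append_assoc] using this
        · have := rreach_one (c :: z ++ (c :: z)) z (List.replicate (m + 1) c)
          rw [h]
          have e : c :: z ++ (c :: z) ++ List.replicate (m + 1) c ++ z ++
              List.replicate (m + 1) c =
              c :: z ++ (c :: z) ++ [c] ++ List.replicate m c ++
                (z ++ List.replicate (m + 1) c) := by
            simp only [List.append_assoc, List.cons_append, List.nil_append,
              List.replicate_succ]
          rw [e] at this
          exact this
      have h6 := hg.frame
        (c :: z ++ (c :: z) ++ [c] ++ List.replicate m c ++ (z ++ List.replicate m' c))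
      refine ⟨(c :: z) ++ [c] ++ List.replicate m c ++ (z ++ List.replicate m' c) ++ z ++ g,
        ?_, fun a => ?_⟩
      · have h7 := (((h1.trans h2).trans h3).trans h4).trans (h5.trans h6)
        have e : c :: z ++ ((c :: z) ++ [c] ++ List.replicate m c ++
              (z ++ List.replicate m' c) ++ z ++ g) =
            c :: z ++ (c :: z) ++ [c] ++ List.replicate m c ++ (z ++ List.replicate m' c) ++
              (z ++ g) := by
          simp only [List.append_assoc]
        rw [e]
        exact h7
      · simp only [List.count_append, List.count_cons, List.count_replicate, List.count_nil, hg' a]
        have hzc : z.count c = 0 := List.count_eq_zero.2 hc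
        by_cases hac : a = c
        · subst hac
          have hkc : k a = 0 := by
            have h0 := hk (fun _ => 0) (fun _ _ => rfl)
            obtain ⟨g0, hg0, hg0'⟩ := h0
            have hsub : ∀ {u v : List α}, RReach u v → ∀ b, b ∈ v → b ∈ u := by
              intro u v h
              induction h with
              | refl => exact fun b hb => hb
              | tail _ h ih =>
                obtain ⟨p, x, y, e1, e2⟩ := h
                intro b hb
                rw [e2] at hb
                rcases List.mem_append.1 hb with hb | hb
                · exact ih b hb
                · apply ih b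
                  rw [e1]
                  simp [hb]
            have h1 : g0.count a = 0 := by
              rw [List.count_eq_zero]
              intro h
              exact hc (hsub hg0 a (List.mem_append_right _ h))
            have h2 := hg0' a
            omega
          simp only [hzc, hkc, beq_self_eq_true, if_true]
          omega
        · have hca : ¬ c = a := fun h => hac h.symm
          simp only [beq_iff_eq, hca, hac, if_false]
          ring

end Pool.Agent.PSC
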