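import Pool.Agent.Hhelper21.PSC.Open

/-!
# Late words: the letter `h` is frozen
-/

set_option autoImplicit false

namespace Pool.Agent.PSC

variable {α : Type*} [DecidableEq α]

/-- the words in which the letter `h` cannot grow any more on the right -/
def Late (w : List α) (c g h : α) (β : ℕ) (u : List α) : Prop :=
  ∃ (s0 l r : List α) (i : ℕ), 1 ≤ i ∧ u = l ++ (s0 ++ c :: List.replicate i g) ++ r ∧
    ¬ (c :: List.replicate i g) <:+: s0 ∧ Reach w (s0 ++ c :: List.replicate i g) ∧
    Reach w (l ++ (s0 ++ c :: List.replicate i g)) ∧ h ∉ r ∧ u.count h ≤ 2 ^ (u.count c) * β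

theorem key_count {c : α} {G l s0 A B : List α} (e : l ++ s0 = A ++ (c :: G) ++ B)
    (hn : ¬ (c :: G) <:+: s0) : s0.count c + 1 ≤ ((c :: G) ++ B).count c := by
  have h1 : s0 <:+ A ++ ((c :: G) ++ B) := ⟨l, by rw [e, List.append_assoc]⟩
  have h2 : (c :: G) ++ B <:+ A ++ ((c :: G) ++ B) := List.suffix_append _ _
  rcases le_total ((c :: G) ++ B).length s0.length with h | h
  · exfalso
    have h3 := List.suffix_of_suffix_length_le h2 h1 h
    exact hn ((List.prefix_append (c :: G) B).isInfix.trans h3.isInfix)
  · obtain ⟨t, ht⟩ := List.suffix_of_suffix_length_le h1 h2 h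
    cases t with
    | nil =>
      exfalso
      simp only [List.nil_append] at ht
      apply hn
      rw [ht]
      exact (List.prefix_append (c :: G) B).isInfix
    | cons d t =>
      have hd : d = c := by
        simp only [List.cons_append, List.cons.injEq] at ht
        exact ht.1
      rw [← ht, hd, List.cons_append, List.count_cons_self, List.count_append]
      omega

theorem late_bound {w : List α} {c g h : α} {n i : ℕ} {s0 : List α} (hi : 1 ≤ i) (hgc : g ≠ c)
    (hhc : h ≠ c) (hgh : g ≠ h) (hw : h ∈ w)
    (hno : ∀ u, Reach w u → u.count c ≤ n → ¬ Op c g h u)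
    (hs : Reach w (s0 ++ c :: List.replicate i g)) :
    ∃ s1 s2, s0 = s1 ++ h :: s2 ∧ h ∉ s2 ∧ n < (s0.count c + 1) + (s2.count c + 1) := by
  have hcG : c ∉ List.replicate i g := fun h => hgc (List.eq_of_mem_replicate h).symm
  have hhG : h ∉ List.replicate i g := fun h' => hgh (List.eq_of_mem_replicate h').symm
  have hh : h ∈ s0 := by
    have h1 : h ∈ s0 ++ c :: List.replicate i g := (reach_infix hs).subset hw
    rcases List.mem_append.1 h1 with h1 | h1
    · exact h1
    · rcases List.mem_cons.1 h1 with h1 | h1
      · exact absurd h1 hhc
      · exact absurd h1 hhG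
  obtain ⟨s1, s2, hs12, hhs2⟩ := last_split hh
  refine ⟨s1, s2, hs12, hhs2, ?_⟩
  by_contra hle
  have e1 : Reach w (s1 ++ (h :: (s2 ++ c :: List.replicate i g)) ++
      (h :: (s2 ++ c :: List.replicate i g))) := by
    have h1 := (rreach_dup s1 (h :: (s2 ++ c :: List.replicate i g))).reach
    have h2 : s0 ++ c :: List.replicate i g = s1 ++ (h :: (s2 ++ c :: List.replicate i g)) := by
      rw [hs12]
      simp
    rw [h2] at hs
    exact hs.trans h1
  have e2 : Reach w (s1 ++ (h :: (s2 ++ c :: List.replicate i g)) ++
      (h :: (s2 ++ c :: List.replicate i g)) ++ [h]) := by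
    have h1 := (rreach_one (s1 ++ [h]) [h] (s2 ++ c :: List.replicate i g)).reach
    have h2 : s1 ++ [h] ++ (s2 ++ c :: List.replicate i g) ++ [h] ++
        (s2 ++ c :: List.replicate i g) = s1 ++ (h :: (s2 ++ c :: List.replicate i g)) ++
      (h :: (s2 ++ c :: List.replicate i g)) := by simp
    rw [h2] at h1
    exact e1.trans h1
  refine hno _ e2 ?_ ?_
  · have h1 : (List.replicate i g).count c = 0 := List.count_eq_zero.2 hcG
    have h2 : s0.count c = s1.count c + s2.count c := by
      rw [hs12, List.count_append, List.count_cons_of_ne hhc]
    simp only [List.count_append, List.count_cons_of_ne hhc, List.count_cons_self, h1,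
      List.count_nil]
    omega
  · refine ⟨List.replicate i g ++ [h], [], ?_, List.nil_prefix, ?_, by simp, ?_, ?_⟩
    · exact ⟨s1 ++ (h :: (s2 ++ c :: List.replicate i g)) ++ (h :: (s2 ++ [c])), by simp⟩
    · intro h1
      rcases List.mem_append.1 h1 with h1 | h1
      · exact hcG h1
      · exact hhc (List.mem_singleton.1 h1).symm
    · left
      refine List.mem_append_left _ (List.mem_replicate.2 ⟨by omega, rfl⟩)
    · left
      simp

theorem late_step {w : List α} {c g h : α} {β n : ℕ} {u v : List α} (hgc : g ≠ c) (hhc : h ≠ c)
    (hgh : g ≠ h) (hw : h ∈ w) (hno : ∀ u, Reach w u → u.count c ≤ n → ¬ Op c g h u)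
    (hL : Late w c g h β u) (hs : Step u v) (hn : v.count c ≤ n) : Late w c g h β v := by
  obtain ⟨s0, l, r, i, hi, hu, hG, hr1, hr2, hhr, hcount⟩ := hL
  obtain ⟨s1, s2, hs12, hhs2, hlt⟩ := late_bound hi hgc hhc hgh hw hno hr1
  have hcG : c ∉ List.replicate i g := fun h => hgc (List.eq_of_mem_replicate h).symm
  have hhG : h ∉ List.replicate i g := fun h' => hgh (List.eq_of_mem_replicate h').symm
  have hG0 : (List.replicate i g).count c = 0 := List.count_eq_zero.2 hcG
  have hs0 : s0.count c = s1.count c + s2.count c := by
    rw [hs12, List.count_append, List.count_cons_of_ne hhc]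
  have hucount : u.count c = l.count c + s0.count c + 1 + r.count c := by
    rw [hu]
    simp only [List.count_append, List.count_cons_self, hG0]
    omega
  cases hs with
  | suf p x y =>
    have hx : h ∉ x := by
      intro hx
      have e1 : y <:+ l ++ (s0 ++ c :: List.replicate i g) ++ r := by
        rw [← hu]
        exact List.suffix_append _ _
      rcases le_or_gt y.length (List.replicate i g ++ r).length with hl | hl
      · have e2 : (List.replicate i g ++ r) <:+ l ++ (s0 ++ c :: List.replicate i g) ++ r :=
          ⟨l ++ s0 ++ [c], by simp⟩
        obtain ⟨y1, hy1⟩ := List.suffix_of_suffix_length_le e1 e2 hl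
        obtain ⟨x1, x2, hx12, hhx2⟩ := last_split hx
        have hhGr : h ∉ List.replicate i g ++ r := by
          intro h1
          rcases List.mem_append.1 h1 with h1 | h1
          · exact hhG h1
          · exact hhr h1
        have hhy : h ∉ y := fun hy => hhGr (by rw [← hy1]; exact List.mem_append_right _ hy)
        have e3 : (p ++ y ++ x1) ++ h :: (x2 ++ y) =
            (l ++ s1) ++ h :: (s2 ++ c :: (List.replicate i g ++ r)) := by
          rw [hx12, hs12] at hu
          simpa using hu
        have e4 := last_unique e3
          (fun h1 => by
            rcases List.mem_append.1 h1 with h1 | h1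
            · exact hhx2 h1
            · exact hhy h1)
          (fun h1 => by
            rcases List.mem_append.1 h1 with h1 | h1
            · exact hhs2 h1
            · rcases List.mem_cons.1 h1 with h1 | h1
              · exact hhc h1
              · exact hhGr h1)
        rw [← hy1] at e4
        have e5 : x2 = s2 ++ c :: y1 := by
          have : x2 ++ y = (s2 ++ c :: y1) ++ y := by simpa using e4
          exact List.append_cancel_right this
        have e6 : x.count c = x1.count c + s2.count c + 1 + y1.count c := by
          rw [hx12, e5]
          simp only [List.count_append, List.count_cons_self, List.count_cons_of_ne hhc]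
          omega
        rw [List.count_append] at hn
        omega
      · have e2 : (c :: (List.replicate i g ++ r)) <:+
            l ++ (s0 ++ c :: List.replicate i g) ++ r := ⟨l ++ s0, by simp⟩
        obtain ⟨y', hy'⟩ := List.suffix_of_suffix_length_le e2 e1 (by
          simp only [List.length_cons]
          omega)
        have e3 : p ++ y ++ x ++ y' = l ++ s0 := by
          have h1 : (p ++ y ++ x ++ y') ++ (c :: (List.replicate i g ++ r)) =
              (l ++ s0) ++ (c :: (List.replicate i g ++ r)) := by
            have h2 : p ++ y ++ x ++ (y' ++ c :: (List.replicate i g ++ r)) =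
                l ++ (s0 ++ c :: List.replicate i g) ++ r := by
              rw [hy']
              exact hu
            simpa using h2
          exact List.append_cancel_right h1
        have e4 : l ++ s0 = (p ++ y') ++ (c :: List.replicate i g) ++ (r ++ x ++ y') := by
          rw [← e3, ← hy']
          simp
        have e5 := key_count e4 hG
        have e6 : y.count c = y'.count c + 1 + r.count c := by
          rw [← hy']
          simp only [List.count_append, List.count_cons_self, hG0]
          omega
        simp only [List.count_append, List.count_cons_self, hG0] at e5 hn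
        omega
    refine ⟨s0, l, r ++ x, i, hi, ?_, hG, hr1, hr2, ?_, ?_⟩
    · rw [hu]
      simp
    · intro h1
      rcases List.mem_append.1 h1 with h1 | h1
      · exact hhr h1
      · exact hx h1
    · rw [List.count_append (a := h), List.count_append (a := c), List.count_eq_zero.2 hx, add_zero]
      refine hcount.trans (Nat.mul_le_mul_right _ (Nat.pow_le_pow_right (by norm_num) ?_))
      omega
  | pre q x y =>
    have e1 : l ++ (s0 ++ c :: List.replicate i g) <+: y ++ x ++ y ++ q := by
      rw [hu]
      exact List.prefix_append _ _
    have e2 : y ++ x ++ y <+: y ++ x ++ y ++ q := List.prefix_append _ _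
    have e3 : y ++ x ++ y <+: l ++ (s0 ++ c :: List.replicate i g) := by
      rcases le_total (y ++ x ++ y).length (l ++ (s0 ++ c :: List.replicate i g)).length
        with hl | hl
      · exact List.prefix_of_prefix_length_le e2 e1 hl
      · exfalso
        obtain ⟨t, ht⟩ := List.prefix_of_prefix_length_le e1 e2 hl
        have e4 : (l ++ s0) ++ c :: (List.replicate i g ++ t) = (y ++ x) ++ y := by
          simpa using ht
        have e5 : s0.count c + 1 ≤ (y ++ x).count c := by
          rcases List.append_eq_append_iff.1 e4 with ⟨t', h1, h2⟩ | ⟨y1, h1, h2⟩
          · cases t' with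
            | nil =>
              -- `l ++ s0 = y ++ x`, `y = c :: …`
              simp only [List.append_nil] at h1
              simp only [List.nil_append] at h2
              have h3 : l ++ s0 = [] ++ (c :: List.replicate i g) ++ (t ++ x) := by
                rw [← h1, ← h2]
                simp
              have h4 := key_count h3 hG
              simp only [List.count_append, List.count_cons_self, hG0] at h4
              rw [← h2]
              simp only [List.count_append, List.count_cons_self, hG0]
              omega
            | cons d t' =>
              simp only [List.cons_append, List.cons.injEq] at h2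
              rw [h1, ← h2.1]
              simp only [List.count_append, List.count_cons_self]
              omega
          · have h3 : l ++ s0 = y1 ++ (c :: List.replicate i g) ++ (t ++ x ++ y1) := by
              rw [h1, h2]
              simp
            have h4 := key_count h3 hG
            simp only [List.count_append, List.count_cons_self, hG0] at h4
            rw [h2]
            simp only [List.count_append, List.count_cons_self, hG0]
            omega
        simp only [List.count_append] at hn e5
        omega
    obtain ⟨q', hq'⟩ := e3
    have e4 : Reach w (x ++ l ++ (s0 ++ c :: List.replicate i g)) := by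
      rw [List.append_assoc, ← hq']
      rw [← hq'] at hr2
      exact hr2.tail (Step.pre q' x y)
    refine ⟨s0, x ++ l, r, i, hi, ?_, hG, hr1, e4, hhr, ?_⟩
    · rw [hu]
      simp
    · by_cases hcx : c ∈ x
      · have h1 : 1 ≤ x.count c := List.count_pos_iff.2 hcx
        have h2 : x.count h ≤ (y ++ x ++ y ++ q).count h := by
          simp only [List.count_append]
          omega
        have h3 : (y ++ x ++ y ++ q).count c + 1 ≤ (x ++ (y ++ x ++ y ++ q)).count c := by
          rw [List.count_append (a := c) (l₁ := x)]
          omega
        rw [List.count_append (a := h) (l₁ := x)]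
        have h4 : 2 ^ ((y ++ x ++ y ++ q).count c + 1) * β ≤
            2 ^ ((x ++ (y ++ x ++ y ++ q)).count c) * β :=
          Nat.mul_le_mul_right _ (Nat.pow_le_pow_right (by norm_num) h3)
        rw [pow_succ] at h4
        linarith
      · have hhx : h ∉ x := by
          intro hx
          refine hno _ e4 ?_ ?_
          · refine le_trans ?_ hn
            rw [hu]
            simp only [List.count_append]
            omega
          · refine ⟨List.replicate i g, x, ?_, ?_, hcG, hcx, ?_, Or.inr hx⟩
            · exact ⟨x ++ l ++ s0 ++ [c], by simp⟩
            · rw [List.append_assoc]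
              exact List.prefix_append _ _
            · left
              exact List.mem_replicate.2 ⟨by omega, rfl⟩
        rw [List.count_append (a := h) (l₁ := x), List.count_append (a := c) (l₁ := x),
          List.count_eq_zero.2 hhx, zero_add]
        refine hcount.trans (Nat.mul_le_mul_right _ (Nat.pow_le_pow_right (by norm_num) ?_))
        omega

end Pool.Agent.PSC
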