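import Pool.Agent.Hhelper21.PSC.Blocks

/-!
# Languages whose block vectors are semilinear

`Nice b Λ`: for every skeleton `s` the set of the parameters `m` for which `W b s (h · m) ∈ Λ` is
semilinear, for all families `h` of additive maps.
-/

set_option autoImplicit false

namespace Pool.Agent.PSC

variable {α : Type*}

/-- see the header -/
def Nice (b : α) (Λ : Set (List α)) : Prop :=
  ∀ s : List α, (∀ a ∈ s, a ≠ b) → ∀ (M : Type) [AddCommMonoid M] [AddMonoid.FG M]
    (h : ℕ → M →+ ℕ), IsSemilinearSet {m : M | W b s (fun i => h i m) ∈ Λ}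

theorem nice_union {b : α} {Λ Λ' : Set (List α)} (h : Nice b Λ) (h' : Nice b Λ') :
    Nice b (Λ ∪ Λ') := fun s hs M _ _ g => (h s hs M g).union (h' s hs M g)

theorem nice_univ (b : α) : Nice b (Set.univ : Set (List α)) := fun s hs M _ _ g => by
  simp

/-- finite conditions on the skeleton -/
theorem nice_skel [DecidableEq α] {b : α} {Λ : Set (List α)} (h : Nice b Λ)
    (P : List α → Prop) : Nice b {u ∈ Λ | P (u.filter fun a => !decide (a = b))} := by
  intro s hs M _ _ g
  by_cases hP : P s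
  · have : {m : M | W b s (fun i => g i m) ∈
        {u ∈ Λ | P (u.filter fun a => !decide (a = b))}} =
        {m : M | W b s (fun i => g i m) ∈ Λ} := by
      ext m
      simp only [Set.mem_setOf_eq, filter_W b s _ hs]
      exact ⟨fun h => h.1, fun h => ⟨h, hP⟩⟩
    rw [this]
    exact h s hs M g
  · have : {m : M | W b s (fun i => g i m) ∈
        {u ∈ Λ | P (u.filter fun a => !decide (a = b))}} = ∅ := by
      ext m
      simp only [Set.mem_setOf_eq, filter_W b s _ hs, Set.mem_empty_iff_false, iff_false]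
      exact fun h => hP h.2
    rw [this]
    exact IsSemilinearSet.empty

/-- gluing of families of additive maps -/
def glueH {M : Type} [AddCommMonoid M] (k : ℕ) (μ ν : ℕ → M →+ ℕ) (i : ℕ) : M →+ ℕ :=
  (if i ≤ k then μ i else 0) + (if k ≤ i then ν (i - k) else 0)

theorem glueH_apply {M : Type} [AddCommMonoid M] (k : ℕ) (μ ν : ℕ → M →+ ℕ) (i : ℕ) (m : M) :
    glueH k μ ν i m = glue k (fun i => μ i m) (fun i => ν i m) i := by
  unfold glueH glue
  rw [AddMonoidHom.add_apply]
  split_ifs <;> simp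

theorem W_glueH {M : Type} [AddCommMonoid M] (b : α) (s t : List α) (μ ν : ℕ → M →+ ℕ) (m : M) :
    W b s (fun i => μ i m) ++ W b t (fun i => ν i m) =
      W b (s ++ t) (fun i => glueH s.length μ ν i m) := by
  rw [W_append]
  congr 1
  funext i
  rw [glueH_apply]

/-- the additive extension of a vector by zero -/
def exH (D : ℕ) (i : ℕ) : (Fin D → ℕ) →+ ℕ :=
  if h : i < D then Pi.evalAddMonoidHom (fun _ : Fin D => ℕ) ⟨i, h⟩ else 0

theorem exH_apply {D i : ℕ} (h : i < D) (π : Fin D → ℕ) : exH D i π = π ⟨i, h⟩ := by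
  simp [exH, h]

/-- concatenation along a list of indices -/
theorem cat_eq (b : α) {M : Type} [AddCommMonoid M] (sk : Fin 3 → List α)
    (g : Fin 3 → ℕ → M →+ ℕ) (L : List (Fin 3)) :
    ∃ f : ℕ → M →+ ℕ, ∀ m, (L.map fun i => W b (sk i) (fun j => g i j m)).flatten =
      W b (L.map sk).flatten (fun j => f j m) := by
  induction L with
  | nil =>
    refine ⟨fun _ => 0, fun m => ?_⟩
    simp [W]
  | cons i L ih =>
    obtain ⟨f, hf⟩ := ih
    refine ⟨glueH (sk i).length (g i) f, fun m => ?_⟩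
    simp only [List.map_cons, List.flatten_cons]
    rw [hf m, W_glueH]

theorem nice_pattern [DecidableEq α] {b : α} {Λ : Set (List α)} (hΛ : Nice b Λ)
    {Γ : Fin 3 → Set (List α)} (hΓ : ∀ i, Nice b (Γ i)) (src tgt : List (Fin 3))
    (htgt : ∀ i, i ∈ tgt) :
    Nice b {v | ∃ ws : Fin 3 → List α, (∀ i, ws i ∈ Γ i) ∧ (src.map ws).flatten ∈ Λ ∧
      v = (tgt.map ws).flatten} := by
  intro s hs M _ _ h
  let D := s.length + 1
  let V := Fin 3 → Fin D → ℕ
  let g : Fin 3 → ℕ → (M × V) →+ ℕ := fun i j =>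
    (exH D j).comp ((Pi.evalAddMonoidHom (fun _ : Fin 3 => Fin D → ℕ) i).comp
      (AddMonoidHom.snd M V))
  have hg : ∀ (i : Fin 3) (j : ℕ) (z : M × V) (hj : j < D), g i j z = z.2 i ⟨j, hj⟩ := by
    intro i j z hj
    show exH D j (z.2 i) = _
    rw [exH_apply hj]
  let cuts : Set (Fin 3 → List α) :=
    {sk | (∀ i, sk i ∈ s.sublists) ∧ (tgt.map sk).flatten = s}
  have hcuts : cuts.Finite := by
    refine (Set.Finite.pi fun _ : Fin 3 => s.sublists.finite_toSet).subset ?_
    intro sk hsk i _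
    exact hsk.1 i
  let A : (Fin 3 → List α) → Set (M × V) := fun sk =>
    {z | W b s (fun i => h i z.1) = (tgt.map fun i => W b (sk i) (fun j => g i j z)).flatten} ∩
    ({z | (src.map fun i => W b (sk i) (fun j => g i j z)).flatten ∈ Λ} ∩
     ⋂ i, {z | W b (sk i) (fun j => g i j z) ∈ Γ i})
  have key : {m : M | W b s (fun i => h i m) ∈ {v | ∃ ws : Fin 3 → List α, (∀ i, ws i ∈ Γ i) ∧
      (src.map ws).flatten ∈ Λ ∧ v = (tgt.map ws).flatten}} =
      ⋃ sk ∈ cuts, (AddMonoidHom.fst M V) '' A sk := by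
    ext m
    simp only [Set.mem_setOf_eq, Set.mem_iUnion, Set.mem_image, exists_prop]
    constructor
    · rintro ⟨ws, h1, h2, h3⟩
      choose μ hμ using fun i => exists_W b (ws i)
      obtain ⟨sk, hsk⟩ : ∃ sk : Fin 3 → List α,
          sk = fun i => (ws i).filter (fun a => !decide (a = b)) := ⟨_, rfl⟩
      have hsk' : ∀ i, W b (sk i) (μ i) = ws i := fun i => by rw [hsk]; exact hμ i
      have hfl : (tgt.map sk).flatten = s := by
        have e := congrArg (List.filter fun a => !decide (a = b)) h3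
        rw [filter_W b s _ hs, List.filter_flatten, List.map_map] at e
        rw [e, hsk]
        rfl
      have hsub : ∀ i, sk i ∈ s.sublists := fun i => by
        rw [List.mem_sublists, ← hfl]
        exact List.sublist_flatten_of_mem (List.mem_map.2 ⟨i, htgt i, rfl⟩)
      have hlen : ∀ i, (sk i).length ≤ s.length := fun i =>
        (List.mem_sublists.1 (hsub i)).length_le
      obtain ⟨z, hz1, hz2⟩ : ∃ z : M × V, z.1 = m ∧ ∀ i (j : Fin D), z.2 i j = μ i j :=
        ⟨(m, fun i j => μ i j), rfl, fun _ _ => rfl⟩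
      have hW : ∀ i, W b (sk i) (fun j => g i j z) = ws i := fun i => by
        rw [← hsk' i]
        apply W_congr
        intro j hj
        have hjD : j < D := lt_of_le_of_lt (hj.trans (hlen i)) (Nat.lt_succ_self _)
        rw [hg i j z hjD, hz2]
      refine ⟨sk, ⟨hsub, hfl⟩, z, ⟨?_, ?_, ?_⟩, hz1⟩
      · simp only [Set.mem_setOf_eq, hW, hz1]
        exact h3
      · simp only [Set.mem_setOf_eq, hW]
        exact h2
      · simp only [Set.mem_iInter, Set.mem_setOf_eq, hW]
        exact h1
    · rintro ⟨sk, hsk, z, ⟨h1, h2, h3⟩, rfl⟩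
      refine ⟨fun i => W b (sk i) (fun j => g i j z), ?_, h2, h1⟩
      intro i
      exact Set.mem_iInter.1 h3 i
  rw [key]
  refine IsSemilinearSet.biUnion hcuts fun sk hsk => IsSemilinearSet.image ?_ _
  have hskb : ∀ i, ∀ a ∈ sk i, a ≠ b := fun i a ha =>
    hs a ((List.mem_sublists.1 (hsk.1 i)).subset ha)
  have hfg : AddMonoid.FG (M × V) := inferInstance
  refine IsSemilinearSet.inter ?_ (IsSemilinearSet.inter ?_ ?_)
  · obtain ⟨f, hf⟩ := cat_eq b sk g tgt
    have e : {z : M × V | W b s (fun i => h i z.1) =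
        (tgt.map fun i => W b (sk i) (fun j => g i j z)).flatten} =
        ⋂ i : Fin D, {z : M × V | 0 + ((h i).comp (AddMonoidHom.fst M V)) z = 0 + f i z} := by
      ext z
      simp only [Set.mem_setOf_eq, Set.mem_iInter, hf, hsk.2, zero_add, AddMonoidHom.comp_apply]
      constructor
      · intro h1 i
        exact (W_inj b s hs hs h1).2 i (Nat.lt_succ_iff.1 i.2)
      · intro h1
        apply W_congr
        intro i hi
        exact h1 ⟨i, Nat.lt_succ_of_le hi⟩
    rw [e]
    exact IsSemilinearSet.iInter fun i => isSemilinearSet_setOfPred_eq 0 0 _ _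
  · obtain ⟨f, hf⟩ := cat_eq b sk g src
    simp only [hf]
    refine hΛ _ ?_ (M × V) f
    intro a ha
    obtain ⟨l, hl, hal⟩ := List.mem_flatten.1 ha
    obtain ⟨i, -, rfl⟩ := List.mem_map.1 hl
    exact hskb i a hal
  · refine IsSemilinearSet.iInter fun i => ?_
    exact hΓ i (sk i) (hskb i) (M × V) (g i)

end Pool.Agent.PSC
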