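import Pool.Agent.Hhelper21.PSC.Defs

/-!
# Symmetry, open words, full fibres
-/

set_option autoImplicit false

namespace Pool.Agent.PSC

variable {α : Type*}

theorem Step.rev {u v : List α} (h : Step u v) : Step u.reverse v.reverse := by
  cases h with
  | suf p x y =>
    have := Step.pre p.reverse x.reverse y.reverse
    simpa [List.append_assoc] using this
  | pre q x y =>
    have := Step.suf q.reverse x.reverse y.reverse
    simpa [List.append_assoc] using this

theorem reach_rev {u v : List α} (h : Reach u v) : Reach u.reverse v.reverse := by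
  induction h with
  | refl => exact Relation.ReflTransGen.refl
  | tail _ hs ih => exact ih.tail hs.rev

theorem reach_rev' {u v : List α} (h : Reach u.reverse v) : Reach u v.reverse := by
  have := reach_rev h
  rwa [List.reverse_reverse] at this

theorem Step.isInf {u v : List α} (h : Step u v) : u <:+: v := by
  cases h with
  | suf p x y => exact ⟨[], x, by simp⟩
  | pre q x y => exact ⟨x, [], by simp⟩

theorem Step.mem {u v : List α} (h : Step u v) {a : α} (ha : a ∈ v) : a ∈ u := by
  cases h with
  | suf p x y =>
    simp only [List.mem_append] at ha ⊢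
    tauto
  | pre q x y =>
    simp only [List.mem_append] at ha ⊢
    tauto

theorem reach_infix {w u : List α} (h : Reach w u) : w <:+: u := by
  induction h with
  | refl => exact List.infix_rfl
  | tail _ hs ih => exact ih.trans hs.isInf

theorem reach_mem {w u : List α} (h : Reach w u) {a : α} (ha : a ∈ u) : a ∈ w := by
  induction h with
  | refl => exact ha
  | tail _ hs ih => exact ih (hs.mem ha)

/-- doubling a suffix -/
theorem reach_dup {u x : List α} (h : x <:+ u) : Reach u (u ++ x) := by
  obtain ⟨p, rfl⟩ := h
  exact (rreach_dup p x).reach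

/-- the last occurrence of a letter -/
theorem last_split {c : α} {u : List α} (h : c ∈ u) : ∃ p R, u = p ++ c :: R ∧ c ∉ R := by
  obtain ⟨A, B, h1, h2⟩ := List.eq_append_cons_of_mem (List.mem_reverse.2 h)
  refine ⟨B.reverse, A.reverse, ?_, ?_⟩
  · have := congrArg List.reverse h1
    rw [List.reverse_reverse] at this
    rw [this]
    simp
  · rwa [List.mem_reverse]

theorem last_unique {h : α} {A B A' B' : List α} (e : A ++ h :: B = A' ++ h :: B') (hB : h ∉ B)
    (hB' : h ∉ B') : B = B' := by
  rcases List.append_eq_append_iff.1 e with ⟨t, h1, h2⟩ | ⟨t, h1, h2⟩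
  · cases t with
    | nil => simpa using h2
    | cons d t =>
      simp only [List.cons_append, List.cons.injEq] at h2
      exfalso
      apply hB
      rw [h2.2]
      simp
  · cases t with
    | nil => simpa using h2.symm
    | cons d t =>
      simp only [List.cons_append, List.cons.injEq] at h2
      exfalso
      apply hB'
      rw [h2.2]
      simp

theorem infix_split {c : α} {z A B : List α} (h : z <:+: A ++ c :: B) (hc : c ∉ z) :
    z <:+: A ∨ z <:+: B := by
  obtain ⟨P, Q, h⟩ := h
  rcases List.append_eq_append_iff.1 h with ⟨t, h1, h2⟩ | ⟨t, h1, h2⟩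
  · exact Or.inl ⟨P, t, h1.symm⟩
  · cases t with
    | nil => exact Or.inl ⟨P, [], by simpa using h1⟩
    | cons d t =>
      simp only [List.cons_append, List.cons.injEq] at h2
      obtain ⟨rfl, h2⟩ := h2
      rcases List.append_eq_append_iff.1 h1 with ⟨t', h3, h4⟩ | ⟨t', h3, h4⟩
      · exfalso
        apply hc
        rw [h4]
        simp
      · right
        cases t' with
        | nil =>
          exfalso
          apply hc
          simp only [List.nil_append] at h4
          rw [← h4]
          simp
        | cons d' t' =>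
          simp only [List.cons_append, List.cons.injEq] at h4
          rw [h2, h4.2]
          exact ⟨t', Q, rfl⟩

variable [DecidableEq α]

theorem count_le_of_infix {u v : List α} (h : u <:+: v) (a : α) : u.count a ≤ v.count a :=
  h.sublist.count_le a

theorem RReach.mem' {u v : List α} (h : RReach u v) {a : α} (ha : a ∈ v) : a ∈ u :=
  reach_mem h.reach ha

/-- growth at both ends -/
theorem open_full {w u r l : List α} (hu : Reach w u) (hr : r <:+ u) (hl : l <+: u) :
    ∃ k : α → ℕ, (∀ a, a ∉ r → a ∉ l → k a = 0) ∧
      ∀ v : α → ℕ, (∀ a, v a ≠ 0 → a ∈ r ∨ a ∈ l) →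
        ∃ u', Reach w u' ∧ ∀ a, u'.count a = u.count a + k a + v a := by
  obtain ⟨kr, hkr⟩ := grow_right r
  obtain ⟨kl, hkl⟩ := grow_right l.reverse
  have hkr0 : ∀ a, a ∉ r → kr a = 0 := by
    intro a ha
    obtain ⟨g, hg, hg'⟩ := hkr (fun _ => 0) (fun _ _ => rfl)
    have h1 : g.count a = 0 := List.count_eq_zero.2 fun h =>
      ha (hg.mem' (List.mem_append_right _ h))
    have h2 := hg' a
    omega
  have hkl0 : ∀ a, a ∉ l → kl a = 0 := by
    intro a ha
    obtain ⟨g, hg, hg'⟩ := hkl (fun _ => 0) (fun _ _ => rfl)
    have h1 : g.count a = 0 := List.count_eq_zero.2 fun h =>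
      ha (List.mem_reverse.1 (hg.mem' (List.mem_append_right _ h)))
    have h2 := hg' a
    omega
  refine ⟨fun a => kr a + kl a, fun a h1 h2 => ?_, fun v hv => ?_⟩
  · show kr a + kl a = 0
    rw [hkr0 a h1, hkl0 a h2]
  · obtain ⟨g, hg, hg'⟩ := hkr (fun a => if a ∈ r then v a else 0) (fun a ha => by simp [ha])
    obtain ⟨g2, hg2, hg2'⟩ := hkl (fun a => if a ∈ r then 0 else v a) (fun a ha => by
      by_cases har : a ∈ r
      · simp [har]
      · simp only [har, if_false]
        by_contra hne
        rcases hv a hne with h | h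
        · exact har h
        · exact ha (List.mem_reverse.2 h))
    obtain ⟨u1, hu1⟩ := hr
    have e1 : Reach u (u ++ g) := by
      have := (hg.frame u1).reach
      rw [← List.append_assoc, hu1] at this
      exact this
    obtain ⟨u2, hu2⟩ : l <+: u ++ g := hl.trans (List.prefix_append _ _)
    have e2 : Reach (u ++ g) (g2.reverse ++ (u ++ g)) := by
      have h1 := reach_rev (hg2.frame u2.reverse).reach
      simp only [List.reverse_append, List.reverse_reverse] at h1
      rw [hu2] at h1
      have h3 : g2.reverse ++ l ++ u2 = g2.reverse ++ (u ++ g) := by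
        rw [List.append_assoc, hu2]
      rwa [h3] at h1
    refine ⟨g2.reverse ++ (u ++ g), (hu.trans e1).trans e2, fun a => ?_⟩
    rw [List.count_append, List.count_append, List.count_reverse, hg' a, hg2' a]
    by_cases har : a ∈ r
    · simp only [har, if_true]
      omega
    · simp only [har, if_false]
      omega

/-- every Parikh image contains a translate of the full orthant -/
theorem full_orthant (w : List α) : ∃ u0 : α → ℕ, ∀ v : α → ℕ, (∀ a, u0 a ≤ v a ∨ a ∉ w) →
    (∀ a, a ∉ w → v a = 0) → v ∈ PI w := by
  obtain ⟨k, hk0, hk⟩ := open_full (w := w) (u := w) (r := w) (l := [])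
    Relation.ReflTransGen.refl (List.suffix_refl w) List.nil_prefix
  refine ⟨fun a => w.count a + k a, fun v h1 h2 => ?_⟩
  obtain ⟨u', hu', hc⟩ := hk (fun a => v a - (w.count a + k a)) (fun a ha => by
    left
    by_contra hn
    rw [h2 a hn] at ha
    simp at ha)
  refine ⟨u', hu', ?_⟩
  funext a
  show u'.count a = v a
  rw [hc a]
  by_cases ha : a ∈ w
  · rcases h1 a with h | h
    · simp only at h ⊢
      omega
    · exact absurd ha h
  · rw [h2 a ha, List.count_eq_zero.2 ha, hk0 a ha (by simp)]

/-- open words -/
def Op (c a b : α) (u : List α) : Prop :=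
  ∃ r l, r <:+ u ∧ l <+: u ∧ c ∉ r ∧ c ∉ l ∧ (a ∈ r ∨ a ∈ l) ∧ (b ∈ r ∨ b ∈ l)

omit [DecidableEq α] in
theorem Op.symm {c a b : α} {u : List α} (h : Op c a b u) : Op c b a u := by
  obtain ⟨r, l, h1, h2, h3, h4, h5, h6⟩ := h
  exact ⟨r, l, h1, h2, h3, h4, h6, h5⟩

omit [DecidableEq α] in
theorem Op.rev {c a b : α} {u : List α} (h : Op c a b u) : Op c a b u.reverse := by
  obtain ⟨r, l, h1, h2, h3, h4, h5, h6⟩ := h
  refine ⟨l.reverse, r.reverse, ?_, ?_, by simpa, by simpa, ?_, ?_⟩
  · exact List.reverse_suffix.2 h2
  · exact List.reverse_prefix.2 h1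
  · simp only [List.mem_reverse]
    exact h5.symm
  · simp only [List.mem_reverse]
    exact h6.symm

omit [DecidableEq α] in
theorem Op.of_rev {c a b : α} {u : List α} (h : Op c a b u.reverse) : Op c a b u := by
  have := h.rev
  rwa [List.reverse_reverse] at this

theorem open_extend {w : List α} {c a b : α} {n : ℕ} {u : List α} (hu : Reach w u)
    (ho : Op c a b u) (hc : c ∈ u) (hn : u.count c ≤ n) :
    ∃ u', Reach w u' ∧ Op c a b u' ∧ u'.count c = n := by
  induction hm : n - u.count c generalizing u with
  | zero => exact ⟨u, hu, ho, by omega⟩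
  | succ m ih =>
    obtain ⟨p, R, hpR, hcR⟩ := last_split hc
    have hsuf : (c :: R) <:+ u := ⟨p, hpR.symm⟩
    have hcount : (u ++ (c :: R)).count c = u.count c + 1 := by
      rw [List.count_append, List.count_cons_self, List.count_eq_zero.2 hcR]
    refine ih (u := u ++ (c :: R)) (hu.trans (reach_dup hsuf)) ?_ ?_ ?_ ?_
    · obtain ⟨r, l, h1, h2, h3, h4, h5, h6⟩ := ho
      refine ⟨r, l, ?_, h2.trans (List.prefix_append _ _), h3, h4, h5, h6⟩
      have hrR : r <:+ (c :: R) := by
        rcases le_total r.length (c :: R).length with h | h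
        · exact List.suffix_of_suffix_length_le h1 hsuf h
        · exfalso
          have := List.suffix_of_suffix_length_le hsuf h1 h
          exact h3 (this.subset (by simp))
      exact hrR.trans (List.suffix_append _ _)
    · simp [hc]
    · rw [hcount]; omega
    · rw [hcount]; omega

end Pool.Agent.PSC
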