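import Pool.Agent.Hhelper21.PSC.Defs

/-!
# Two modules for the counterexample (helper7)

`not_semilinear_of_slice`: a set with slices of unbounded period is not semilinear.
`exists_word`: the reachable words.
-/

set_option autoImplicit false

namespace Pool.Agent.PSC

open Function

private theorem sliceX_linear {S : Set (Fin 10 → ℕ)} (hS : IsLinearSet S) :
    ∃ C : ℕ, ∀ w : Fin 10 → ℕ, (∀ N, ∃ n, N ≤ n ∧ update w 9 n ∈ S) →
      ∃ n c, 0 < c ∧ c ≤ C ∧ update w 9 n ∈ S ∧ update w 9 (n + c) ∈ S := by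
  obtain ⟨a, T, hT, rfl⟩ := hS
  refine ⟨∑ t ∈ hT.toFinset, t 9, fun w hw => ?_⟩
  have hle : ∀ t ∈ T, t 9 ≤ ∑ t ∈ hT.toFinset, t 9 := fun t ht =>
    Finset.single_le_sum (f := fun t : Fin 10 → ℕ => t 9) (fun _ _ => Nat.zero_le _)
      (hT.mem_toFinset.2 ht)
  by_cases hp : ∃ t ∈ T, 0 < t 9 ∧ ∀ i, i ≠ 9 → t i = 0
  · obtain ⟨t, ht, h9, h0⟩ := hp
    obtain ⟨n, -, hn⟩ := hw 0
    refine ⟨n, t 9, h9, hle t ht, hn, ?_⟩
    rw [Set.mem_vadd_set] at hn ⊢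
    obtain ⟨y, hy, e⟩ := hn
    refine ⟨y + t, AddSubmonoid.add_mem _ hy (AddSubmonoid.subset_closure ht), ?_⟩
    funext i
    have ei := congrFun e i
    by_cases hi : i = 9
    · subst hi
      simp only [vadd_eq_add, Pi.add_apply, update_self] at ei ⊢
      omega
    · simp only [vadd_eq_add, Pi.add_apply, update_of_ne hi, h0 i hi] at ei ⊢
      omega
  · push Not at hp
    exfalso
    set C := ∑ t ∈ hT.toFinset, t 9 with hC
    have key : ∀ y ∈ AddSubmonoid.closure T, y 9 ≤ C * ∑ i ∈ Finset.univ.erase (9 : Fin 10), y i := by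
      intro y hy
      induction hy using AddSubmonoid.closure_induction with
      | mem t ht =>
        by_cases h9 : 0 < t 9
        · obtain ⟨i, hi, h⟩ := hp t ht h9
          have h1 : t i ≤ ∑ i ∈ Finset.univ.erase (9 : Fin 10), t i :=
            Finset.single_le_sum (f := fun i => t i) (fun _ _ => Nat.zero_le _)
              (Finset.mem_erase.2 ⟨hi, Finset.mem_univ _⟩)
          have h2 : 1 ≤ ∑ i ∈ Finset.univ.erase (9 : Fin 10), t i := by omega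
          exact (hle t ht).trans (by simpa using Nat.mul_le_mul_left C h2)
        · have : t 9 = 0 := by omega
          rw [this]
          exact Nat.zero_le _
      | zero => simp
      | add x y _ _ hx hy =>
        simp only [Pi.add_apply, Finset.sum_add_distrib, Nat.mul_add]
        omega
    obtain ⟨n, hn, hm⟩ := hw (a 9 + C * (∑ i ∈ Finset.univ.erase (9 : Fin 10), w i) + 1)
    rw [Set.mem_vadd_set] at hm
    obtain ⟨y, hy, e⟩ := hm
    have h1 := key y hy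
    have h2 : ∑ i ∈ Finset.univ.erase (9 : Fin 10), y i ≤ ∑ i ∈ Finset.univ.erase (9 : Fin 10), w i := by
      apply Finset.sum_le_sum
      intro i hi
      have hi9 := (Finset.mem_erase.1 hi).1
      have ei := congrFun e i
      simp only [vadd_eq_add, Pi.add_apply, update_of_ne hi9] at ei
      omega
    have h3 := Nat.mul_le_mul_left C h2
    have e9 := congrFun e 9
    simp only [vadd_eq_add, Pi.add_apply, update_self] at e9
    omega

private theorem sliceX_semi {S : Set (Fin 10 → ℕ)} (hS : IsSemilinearSet S) :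
    ∃ C : ℕ, ∀ w : Fin 10 → ℕ, (∀ N, ∃ n, N ≤ n ∧ update w 9 n ∈ S) →
      ∃ n c, 0 < c ∧ c ≤ C ∧ update w 9 n ∈ S ∧ update w 9 (n + c) ∈ S := by
  obtain ⟨F, hF, hlin, rfl⟩ := hS
  have hC : ∀ T : Set (Fin 10 → ℕ), ∃ C : ℕ, T ∈ F → ∀ w : Fin 10 → ℕ,
      (∀ N, ∃ n, N ≤ n ∧ update w 9 n ∈ T) →
      ∃ n c, 0 < c ∧ c ≤ C ∧ update w 9 n ∈ T ∧ update w 9 (n + c) ∈ T := by
    intro T
    by_cases hT : T ∈ F
    · obtain ⟨C, h⟩ := sliceX_linear (hlin T hT)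
      exact ⟨C, fun _ => h⟩
    · exact ⟨0, fun h => absurd h hT⟩
  choose C hC using hC
  refine ⟨∑ T ∈ hF.toFinset, C T, fun w hw => ?_⟩
  have hex : ∃ T ∈ F, ∀ N, ∃ n, N ≤ n ∧ update w 9 n ∈ T := by
    by_contra hno
    push Not at hno
    choose! N hN using hno
    obtain ⟨n, hn, T, hT, hm⟩ := hw (∑ T ∈ hF.toFinset, N T)
    have h1 : N T ≤ ∑ T ∈ hF.toFinset, N T :=
      Finset.single_le_sum (f := fun T => N T) (fun _ _ => Nat.zero_le _) (hF.mem_toFinset.2 hT)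
    exact hN T hT n (h1.trans hn) hm
  obtain ⟨T, hT, h⟩ := hex
  obtain ⟨n, c, h0, h1, h2, h3⟩ := hC T hT w h
  have h4 : C T ≤ ∑ T ∈ hF.toFinset, C T :=
    Finset.single_le_sum (f := fun T => C T) (fun _ _ => Nat.zero_le _) (hF.mem_toFinset.2 hT)
  exact ⟨n, c, h0, h1.trans h4, ⟨T, hT, h2⟩, ⟨T, hT, h3⟩⟩

/-- a set whose slices have unbounded periods is not semilinear -/
theorem not_semilinear_of_slice (V : Set (Fin 10 → ℕ))
    (h1 : ∀ v ∈ V, v 0 = 1 → v 1 = 17 → v 2 = 2 → v 3 = 4 → v 4 = 3 → v 5 = 7 → v 6 = 5 →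
      v 8 = 20 → ∀ k, 1 ≤ k → v 7 = 5 * (2 * k + 3) → ∃ j, 1 ≤ j ∧ v 9 = 5 * ((2 * k + 2) * j))
    (h2 : ∀ k, 1 ≤ k → ∀ j, 1 ≤ j →
      (![1, 17, 2, 4, 3, 7, 5, 5 * (2 * k + 3), 20, 5 * ((2 * k + 2) * j)] : Fin 10 → ℕ) ∈ V) :
    ¬ IsSemilinearSet V := by
  intro hV
  obtain ⟨C, hC⟩ := sliceX_semi hV
  set k := C + 1 with hk
  set w : Fin 10 → ℕ := ![1, 17, 2, 4, 3, 7, 5, 5 * (2 * k + 3), 20, 0] with hw
  have hup : ∀ n, update w 9 n = (![1, 17, 2, 4, 3, 7, 5, 5 * (2 * k + 3), 20, n] : Fin 10 → ℕ) := by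
    intro n
    funext i
    fin_cases i <;> rfl
  obtain ⟨n, c, h0, hcC, hn, hnc⟩ := hC w fun N => by
    refine ⟨5 * ((2 * k + 2) * (N + 1)), ?_, ?_⟩
    · nlinarith
    · rw [hup]
      exact h2 k (by omega) (N + 1) (by omega)
  rw [hup] at hn hnc
  obtain ⟨j, -, hj⟩ := h1 _ hn rfl rfl rfl rfl rfl rfl rfl rfl k (by omega) rfl
  obtain ⟨j', -, hj'⟩ := h1 _ hnc rfl rfl rfl rfl rfl rfl rfl rfl k (by omega) rfl
  have e1 : n = 5 * ((2 * k + 2) * j) := hj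
  have e2 : n + c = 5 * ((2 * k + 2) * j') := hj'
  have hd : 5 * (2 * k + 2) ∣ c := by
    have a1 : 5 * (2 * k + 2) ∣ n := ⟨j, by rw [e1]; ring⟩
    have a2 : 5 * (2 * k + 2) ∣ n + c := ⟨j', by rw [e2]; ring⟩
    exact (Nat.dvd_add_right a1).1 a2
  have := Nat.le_of_dvd h0 hd
  omega

/-- `K ^ m` -/
private def kpow (K : List (Fin 10)) (m : ℕ) : List (Fin 10) := (List.replicate m K).flatten

private theorem kpow_succ (K : List (Fin 10)) (m : ℕ) : kpow K (m + 1) = K ++ kpow K m := by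
  simp [kpow, List.replicate_succ]

private theorem kpow_comm (K : List (Fin 10)) (m : ℕ) : kpow K m ++ K = K ++ kpow K m := by
  induction m with
  | zero => simp [kpow]
  | succ m ih => rw [kpow_succ, List.append_assoc, ih]

private theorem kpow_count (K : List (Fin 10)) (m : ℕ) (c : Fin 10) :
    (kpow K m).count c = m * K.count c := by
  induction m with
  | zero => simp [kpow]
  | succ m ih => rw [kpow_succ, List.count_append, ih]; ring

private theorem rreach_kpow (p K : List (Fin 10)) (m : ℕ) :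
    RReach (p ++ K) (p ++ K ++ kpow K m) := by
  induction m with
  | zero => simpa [kpow] using Relation.ReflTransGen.refl
  | succ m ih =>
    refine ih.trans ?_
    have h := rreach_dup (p ++ kpow K m) K
    have e1 : p ++ K ++ kpow K m = p ++ kpow K m ++ K := by
      rw [List.append_assoc, List.append_assoc, kpow_comm]
    have e2 : p ++ K ++ kpow K (m + 1) = p ++ kpow K m ++ K ++ K := by
      rw [kpow_succ, List.append_assoc p K, ← kpow_comm, List.append_assoc p (kpow K m) K,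
        kpow_comm]
      simp only [List.append_assoc, kpow_comm]
    rw [e1, e2]
    exact h

/-- the words of the counterexample are reachable -/
theorem exists_word (k j : ℕ) (hk : 1 ≤ k) (hj : 1 ≤ j) :
    ∃ u ∈ Lang ([0, 1, 2, 3, 4, 5, 6, 7, 8, 1, 9] : List (Fin 10)),
      parikh u = ![1, 17, 2, 4, 3, 7, 5, 5 * (2 * k + 3), 20, 5 * ((2 * k + 2) * j)] := by
  obtain ⟨k, rfl⟩ : ∃ i, k = i + 1 := ⟨k - 1, by omega⟩
  obtain ⟨j, rfl⟩ : ∃ i, j = i + 1 := ⟨j - 1, by omega⟩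
  set A : List (Fin 10) := [9] ++ List.replicate j 9 with hA
  set K : List (Fin 10) := A ++ [7] with hK
  set Q : List (Fin 10) := kpow K (k + 1) with hQ
  set xx : List (Fin 10) := [7, 8, 1] ++ K ++ [8, 1] ++ K ++ Q ++ [8, 1] ++ Q ++ [8] with hxx
  set X : List (Fin 10) := [3, 4, 5, 6] ++ xx with hX
  set T : List (Fin 10) := [5] ++ ([6] ++ xx) ++ [5] ++ ([6] ++ xx) ++ [5] with hT
  have s1 : RReach ([0, 1, 2, 3, 4, 5, 6, 7, 8, 1, 9] : List (Fin 10))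
      ([0, 1, 2, 3, 4, 5, 6] ++ ([7, 8, 1] ++ A)) := by
    have := rreach_pump ([0, 1, 2, 3, 4, 5, 6, 7, 8, 1] : List (Fin 10)) 9 j
    simpa [hA] using this
  have s2 := rreach_dup ([0, 1, 2, 3, 4, 5, 6] : List (Fin 10)) ([7, 8, 1] ++ A)
  have s3 := rreach_one ([0, 1, 2, 3, 4, 5, 6, 7] : List (Fin 10)) [7] ([8, 1] ++ A)
  have s4 := rreach_kpow ([0, 1, 2, 3, 4, 5, 6] ++ ([7, 8, 1] ++ K ++ [8, 1])) K k
  have s5 := rreach_dup ([0, 1, 2, 3, 4, 5, 6] ++ [7, 8, 1]) (K ++ [8, 1] ++ Q)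
  have s6 := rreach_one ([0, 1, 2, 3, 4, 5, 6] ++ [7, 8, 1] ++ K ++ [8, 1] ++ K) [8, 1] Q
  have s7 := rreach_one ([0] : List (Fin 10)) ([2] ++ X) [1]
  have s8 := rreach_dup ([0, 1, 2] ++ X ++ [1, 2, 3, 4]) ([5, 6] ++ xx)
  have s9 := rreach_one ([0, 1, 2] ++ X ++ [1, 2, 3, 4] ++ [5]) [5] ([6] ++ xx)
  have s10 := rreach_dup ([0, 1, 2] ++ X ++ [1, 2]) ([3, 4] ++ T)
  have s11 := rreach_one ([0, 1, 2] ++ X ++ [1, 2] ++ [3]) [3] ([4] ++ T)
  have c3 : ([0, 1, 2, 3, 4, 5, 6, 7] : List (Fin 10)) ++ ([8, 1] ++ A) ++ [7] ++ ([8, 1] ++ A) =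
      ([0, 1, 2, 3, 4, 5, 6] : List (Fin 10)) ++ ([7, 8, 1] ++ A) ++ ([7, 8, 1] ++ A) := by
    simp [List.append_assoc]
  have c4 : ([0, 1, 2, 3, 4, 5, 6, 7] : List (Fin 10)) ++ ([8, 1] ++ A) ++ [7] ++ ([8, 1] ++ A) ++ [7] =
      [0, 1, 2, 3, 4, 5, 6] ++ ([7, 8, 1] ++ K ++ [8, 1]) ++ K := by
    simp [hK, List.append_assoc]
  have c5 : [0, 1, 2, 3, 4, 5, 6] ++ ([7, 8, 1] ++ K ++ [8, 1]) ++ K ++ kpow K k =
      [0, 1, 2, 3, 4, 5, 6] ++ [7, 8, 1] ++ (K ++ [8, 1] ++ Q) := by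
    rw [hQ, kpow_succ]
    simp only [List.append_assoc]
  have c6 : [0, 1, 2, 3, 4, 5, 6] ++ [7, 8, 1] ++ (K ++ [8, 1] ++ Q) ++ (K ++ [8, 1] ++ Q) =
      [0, 1, 2, 3, 4, 5, 6] ++ [7, 8, 1] ++ K ++ [8, 1] ++ K ++ Q ++ [8, 1] ++ Q := by
    have : Q ++ (K ++ ([8, 1] ++ Q)) = K ++ (Q ++ ([8, 1] ++ Q)) := by
      rw [← List.append_assoc, ← List.append_assoc K, hQ, kpow_comm]
    simp only [List.append_assoc, this]
  have c7 : [0, 1, 2, 3, 4, 5, 6] ++ [7, 8, 1] ++ K ++ [8, 1] ++ K ++ Q ++ [8, 1] ++ Q ++ [8, 1] =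
      [0] ++ [1] ++ ([2] ++ X) ++ [1] := by
    simp [hX, hxx, List.append_assoc]
  have c8 : [0] ++ [1] ++ ([2] ++ X) ++ [1] ++ ([2] ++ X) =
      [0, 1, 2] ++ X ++ [1, 2, 3, 4] ++ ([5, 6] ++ xx) := by
    simp [hX, List.append_assoc]
  have c9 : [0, 1, 2] ++ X ++ [1, 2, 3, 4] ++ ([5, 6] ++ xx) ++ ([5, 6] ++ xx) =
      [0, 1, 2] ++ X ++ [1, 2, 3, 4] ++ [5] ++ ([6] ++ xx) ++ [5] ++ ([6] ++ xx) := by
    simp [List.append_assoc]
  have c10 : [0, 1, 2] ++ X ++ [1, 2, 3, 4] ++ [5] ++ ([6] ++ xx) ++ [5] ++ ([6] ++ xx) ++ [5] =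
      [0, 1, 2] ++ X ++ [1, 2] ++ ([3, 4] ++ T) := by
    simp [hT, List.append_assoc]
  have c11 : [0, 1, 2] ++ X ++ [1, 2] ++ ([3, 4] ++ T) ++ ([3, 4] ++ T) =
      [0, 1, 2] ++ X ++ [1, 2] ++ [3] ++ ([4] ++ T) ++ [3] ++ ([4] ++ T) := by
    simp [List.append_assoc]
  rw [c4, c3] at s3
  rw [c5] at s4
  rw [c6] at s5
  rw [c7] at s6
  rw [c8] at s7
  rw [c9] at s8
  rw [c10] at s9
  rw [c11] at s10
  refine ⟨[0, 1, 2] ++ X ++ [1, 2] ++ [3] ++ ([4] ++ T) ++ [3] ++ ([4] ++ T) ++ [3],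
    RReach.reach (s1.trans (s2.trans (s3.trans (s4.trans (s5.trans (s6.trans (s7.trans (s8.trans
      (s9.trans (s10.trans s11)))))))))), ?_⟩
  funext i
  simp only [parikh, hT, hX, hxx, List.count_append, hQ, kpow_count, hK, hA,
    List.count_replicate]
  fin_cases i <;> simp [List.count_cons] <;> ring

end Pool.Agent.PSC
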