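import Pool.Agent.Hhelper21.PSC.Nice
import Pool.Agent.Hhelper21.PSC.Defs

/-!
# One frequent letter

For every word `w` and every letter `b` the words of `L(w)` with a bounded number of letters
different from `b` have a semilinear Parikh image.
-/

set_option autoImplicit false

namespace Pool.Agent.PSC

variable {α : Type*} [DecidableEq α]

/-- the skeleton -/
abbrev sk (b : α) (u : List α) : List α := u.filter fun a => !decide (a = b)

theorem sk_append (b : α) (u v : List α) : sk b (u ++ v) = sk b u ++ sk b v :=
  List.filter_append _ _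

theorem sk_replicate (b : α) (j : ℕ) : sk b (List.replicate j b) = [] := by
  simp [sk]

theorem eq_replicate_of_sk {b : α} {x : List α} (h : sk b x = []) :
    x = List.replicate x.length b := by
  rw [List.eq_replicate_iff]
  refine ⟨rfl, fun a ha => ?_⟩
  unfold sk at h
  rw [List.filter_eq_nil_iff] at h
  simpa using h a ha

theorem nice_of_nil {b : α} {Λ : Set (List α)} (h : ∀ u ∈ Λ, sk b u = [])
    (h0 : ∀ (M : Type) [AddCommMonoid M] [AddMonoid.FG M] (g : M →+ ℕ),
      IsSemilinearSet {m : M | List.replicate (g m) b ∈ Λ}) : Nice b Λ := by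
  intro s hs M _ _ g
  cases s with
  | nil => exact h0 M (g 0)
  | cons a s =>
    have : {m : M | W b (a :: s) (fun i => g i m) ∈ Λ} = ∅ := by
      ext m
      simp only [Set.mem_setOf_eq, Set.mem_empty_iff_false, iff_false]
      intro hm
      have := h _ hm
      rw [sk, filter_W b _ _ hs] at this
      exact List.cons_ne_nil _ _ this
    rw [this]
    exact IsSemilinearSet.empty

theorem nice_one (b : α) : Nice b {[b]} := by
  refine nice_of_nil (fun u hu => ?_) fun M _ _ g => ?_
  · rw [Set.mem_singleton_iff.1 hu]
    simp [sk]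
  · have e : {m : M | List.replicate (g m) b ∈ ({[b]} : Set (List α))} =
        {m : M | 0 + g m = 1 + (0 : M →+ ℕ) m} := by
      ext m
      simp only [Set.mem_setOf_eq, Set.mem_singleton_iff, zero_add, AddMonoidHom.zero_apply,
        add_zero]
      constructor
      · intro h
        simpa using congrArg List.length h
      · intro h
        rw [h]
        rfl
    rw [e]
    exact isSemilinearSet_setOfPred_eq 0 1 _ _

theorem nice_pow (b : α) : Nice b {u | sk b u = []} := by
  refine nice_of_nil (fun u hu => hu) fun M _ _ g => ?_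
  have e : {m : M | List.replicate (g m) b ∈ {u | sk b u = []}} = Set.univ := by
    ext m
    simp only [Set.mem_setOf_eq, Set.mem_univ, iff_true]
    exact sk_replicate b _
  rw [e]
  exact IsSemilinearSet.univ

/-- one step -/
def ST (Λ : Set (List α)) : Set (List α) := {v | ∃ u ∈ Λ, Step u v}

theorem nice_ST {b : α} {Λ : Set (List α)} (h : Nice b Λ) : Nice b (ST Λ) := by
  have h1 := nice_pattern h (Γ := fun _ => Set.univ) (fun _ => nice_univ b) [0, 2, 1, 2]
    [0, 2, 1, 2, 1] (by decide)
  have h2 := nice_pattern h (Γ := fun _ => Set.univ) (fun _ => nice_univ b) [2, 1, 2, 0]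
    [1, 2, 1, 2, 0] (by decide)
  have e : ST Λ = {v | ∃ ws : Fin 3 → List α, (∀ i, ws i ∈ (Set.univ : Set (List α))) ∧
      (([0, 2, 1, 2] : List (Fin 3)).map ws).flatten ∈ Λ ∧
      v = (([0, 2, 1, 2, 1] : List (Fin 3)).map ws).flatten} ∪
      {v | ∃ ws : Fin 3 → List α, (∀ i, ws i ∈ (Set.univ : Set (List α))) ∧
      (([2, 1, 2, 0] : List (Fin 3)).map ws).flatten ∈ Λ ∧
      v = (([1, 2, 1, 2, 0] : List (Fin 3)).map ws).flatten} := by
    ext v
    simp only [ST, Set.mem_setOf_eq, Set.mem_union, Set.mem_univ, implies_true, true_and,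
      List.map_cons, List.map_nil, List.flatten_cons, List.flatten_nil, List.append_nil]
    constructor
    · rintro ⟨u, hu, hs⟩
      cases hs with
      | suf p x y =>
        refine Or.inl ⟨![p, x, y], ?_, ?_⟩
        · simpa [List.append_assoc] using hu
        · simp [List.append_assoc]
      | pre q x y =>
        refine Or.inr ⟨![q, x, y], ?_, ?_⟩
        · simpa [List.append_assoc] using hu
        · simp [List.append_assoc]
    · rintro (⟨ws, h1, rfl⟩ | ⟨ws, h1, rfl⟩)
      · refine ⟨_, h1, ?_⟩
        have := Step.suf (ws 0) (ws 1) (ws 2)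
        simpa [List.append_assoc] using this
      · refine ⟨_, h1, ?_⟩
        have := Step.pre (ws 0) (ws 1) (ws 2)
        simpa [List.append_assoc] using this
  rw [e]
  exact nice_union h1 h2

/-- growth on the right of the words which end with `b` -/
def UR (b : α) (Λ : Set (List α)) : Set (List α) :=
  {v | ∃ t j, t ++ [b] ∈ Λ ∧ v = t ++ [b] ++ List.replicate j b}

/-- growth on the left -/
def UL (b : α) (Λ : Set (List α)) : Set (List α) :=
  {v | ∃ t j, [b] ++ t ∈ Λ ∧ v = List.replicate j b ++ ([b] ++ t)}

theorem nice_UR {b : α} {Λ : Set (List α)} (h : Nice b Λ) : Nice b (UR b Λ) := by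
  have h1 := nice_pattern h (Γ := ![Set.univ, {[b]}, {u | sk b u = []}]) (fun i => by
    fin_cases i
    · exact nice_univ b
    · exact nice_one b
    · exact nice_pow b) [0, 1] [0, 1, 2] (by decide)
  have e : UR b Λ = {v | ∃ ws : Fin 3 → List α,
      (∀ i, ws i ∈ (![Set.univ, {[b]}, {u | sk b u = []}] : Fin 3 → Set (List α)) i) ∧
      (([0, 1] : List (Fin 3)).map ws).flatten ∈ Λ ∧
      v = (([0, 1, 2] : List (Fin 3)).map ws).flatten} := by
    ext v
    simp only [UR, Set.mem_setOf_eq, List.map_cons, List.map_nil, List.flatten_cons,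
      List.flatten_nil, List.append_nil]
    constructor
    · rintro ⟨t, j, ht, rfl⟩
      refine ⟨![t, [b], List.replicate j b], ?_, ?_, ?_⟩
      · intro i
        fin_cases i
        · exact Set.mem_univ _
        · exact Set.mem_singleton _
        · exact sk_replicate b j
      · simpa using ht
      · simp [List.append_assoc]
    · rintro ⟨ws, h1, h2, rfl⟩
      have e1 : ws 1 = [b] := h1 1
      have e2 : sk b (ws 2) = [] := h1 2
      refine ⟨ws 0, (ws 2).length, ?_, ?_⟩
      · rwa [e1] at h2
      · rw [e1, ← eq_replicate_of_sk e2, List.append_assoc]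
  rw [e]
  exact h1

theorem nice_UL {b : α} {Λ : Set (List α)} (h : Nice b Λ) : Nice b (UL b Λ) := by
  have h1 := nice_pattern h (Γ := ![Set.univ, {[b]}, {u | sk b u = []}]) (fun i => by
    fin_cases i
    · exact nice_univ b
    · exact nice_one b
    · exact nice_pow b) [1, 0] [2, 1, 0] (by decide)
  have e : UL b Λ = {v | ∃ ws : Fin 3 → List α,
      (∀ i, ws i ∈ (![Set.univ, {[b]}, {u | sk b u = []}] : Fin 3 → Set (List α)) i) ∧
      (([1, 0] : List (Fin 3)).map ws).flatten ∈ Λ ∧
      v = (([2, 1, 0] : List (Fin 3)).map ws).flatten} := by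
    ext v
    simp only [UL, Set.mem_setOf_eq, List.map_cons, List.map_nil, List.flatten_cons,
      List.flatten_nil, List.append_nil]
    constructor
    · rintro ⟨t, j, ht, rfl⟩
      refine ⟨![t, [b], List.replicate j b], ?_, ?_, ?_⟩
      · intro i
        fin_cases i
        · exact Set.mem_univ _
        · exact Set.mem_singleton _
        · exact sk_replicate b j
      · simpa using ht
      · simp
    · rintro ⟨ws, h1, h2, rfl⟩
      have e1 : ws 1 = [b] := h1 1
      have e2 : sk b (ws 2) = [] := h1 2
      refine ⟨ws 0, (ws 2).length, ?_, ?_⟩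
      · rwa [e1] at h2
      · rw [e1, ← eq_replicate_of_sk e2]
  rw [e]
  exact h1

/-- closure under growth at both ends -/
def UU (b : α) (Λ : Set (List α)) : Set (List α) := (Λ ∪ UR b Λ) ∪ UL b (Λ ∪ UR b Λ)

theorem nice_UU {b : α} {Λ : Set (List α)} (h : Nice b Λ) : Nice b (UU b Λ) :=
  nice_union (nice_union h (nice_UR h)) (nice_UL (nice_union h (nice_UR h)))

theorem ends_of_append {b : α} {x y : List α} (hy : y ≠ []) {t : List α}
    (h : x ++ y = t ++ [b]) : ∃ t', y = t' ++ [b] := by
  rcases List.eq_nil_or_concat y with rfl | ⟨y', d, rfl⟩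
  · exact absurd rfl hy
  · rw [List.concat_eq_append, ← List.append_assoc] at h
    have := List.append_inj' h rfl
    rw [List.concat_eq_append]
    exact ⟨y', by rw [this.2]⟩

theorem UR_right {b : α} {Λ : Set (List α)} {t : List α} {j : ℕ}
    (h : t ++ [b] ∈ Λ ∪ UR b Λ) : t ++ [b] ++ List.replicate j b ∈ Λ ∪ UR b Λ := by
  rcases h with h | ⟨t', j', h1, h2⟩
  · exact Or.inr ⟨t, j, h, rfl⟩
  · refine Or.inr ⟨t', j' + j, h1, ?_⟩
    rw [h2, List.append_assoc, List.replicate_append_replicate]

theorem UU_right {b : α} {Λ : Set (List α)} {t : List α} {j : ℕ} (h : t ++ [b] ∈ UU b Λ) :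
    t ++ [b] ++ List.replicate j b ∈ UU b Λ := by
  rcases h with h | ⟨t', j', h1, h2⟩
  · exact Or.inl (UR_right h)
  · obtain ⟨t'', ht''⟩ := ends_of_append (x := List.replicate j' b) (y := [b] ++ t')
      (by simp) h2.symm
    rw [ht''] at h1
    have h3 := UR_right (j := j) h1
    rw [← ht''] at h3
    refine Or.inr ⟨t' ++ List.replicate j b, j', ?_, ?_⟩
    · rwa [List.append_assoc] at h3
    · rw [h2]
      simp only [List.append_assoc]

theorem UU_left {b : α} {Λ : Set (List α)} {t : List α} {j : ℕ} (h : [b] ++ t ∈ UU b Λ) :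
    List.replicate j b ++ ([b] ++ t) ∈ UU b Λ := by
  rcases h with h | ⟨t', j', h1, h2⟩
  · exact Or.inr ⟨t, j, h, rfl⟩
  · refine Or.inr ⟨t', j + j', h1, ?_⟩
    rw [h2, ← List.append_assoc, List.replicate_append_replicate]

theorem subset_UU (b : α) (Λ : Set (List α)) : Λ ⊆ UU b Λ := fun _ h => Or.inl (Or.inl h)

/-- restriction to short skeletons -/
def rest (b : α) (n : ℕ) (Λ : Set (List α)) : Set (List α) := {u ∈ Λ | (sk b u).length < n}

theorem nice_rest {b : α} {n : ℕ} {Λ : Set (List α)} (h : Nice b Λ) : Nice b (rest b n Λ) :=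
  nice_skel h (fun s => s.length < n)

/-- one round -/
def TT (b : α) (n : ℕ) (Λ : Set (List α)) : Set (List α) := rest b n (UU b (Λ ∪ ST Λ))

theorem nice_TT {b : α} {n : ℕ} {Λ : Set (List α)} (h : Nice b Λ) : Nice b (TT b n Λ) :=
  nice_rest (nice_UU (nice_union h (nice_ST h)))

theorem reach_right (b : α) (t : List α) (j : ℕ) :
    Reach (t ++ [b]) (t ++ [b] ++ List.replicate j b) := (rreach_pump t b j).reach

theorem reach_left (b : α) (t : List α) (j : ℕ) :
    Reach ([b] ++ t) (List.replicate j b ++ ([b] ++ t)) := by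
  induction j with
  | zero => exact Relation.ReflTransGen.refl
  | succ j ih =>
    refine ih.tail ?_
    cases j with
    | zero =>
      have := Step.pre t [b] ([] : List α)
      simpa using this
    | succ j =>
      have := Step.pre (List.replicate j b ++ ([b] ++ t)) [b] ([] : List α)
      simpa [List.replicate_succ] using this

theorem TT_sound {w : List α} {b : α} {n : ℕ} {Λ : Set (List α)} (h : Λ ⊆ {u | Reach w u}) :
    TT b n Λ ⊆ {u | Reach w u ∧ (sk b u).length < n} := by
  have h1 : Λ ∪ ST Λ ⊆ {u | Reach w u} := by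
    rintro v (hv | ⟨u, hu, hs⟩)
    · exact h hv
    · exact Relation.ReflTransGen.tail (h hu) hs
  have h2 : ∀ Λ' : Set (List α), Λ' ⊆ {u | Reach w u} → Λ' ∪ UR b Λ' ⊆ {u | Reach w u} := by
    rintro Λ' h' v (hv | ⟨t, j, ht, rfl⟩)
    · exact h' hv
    · exact Relation.ReflTransGen.trans (h' ht) (reach_right b t j)
  rintro v ⟨hv, hn⟩
  refine ⟨?_, hn⟩
  rcases hv with hv | ⟨t, j, ht, rfl⟩
  · exact h2 _ h1 hv
  · exact Relation.ReflTransGen.trans (h2 _ h1 ht) (reach_left b t j)

theorem subset_TT {b : α} {n : ℕ} {Λ : Set (List α)} {u : List α} (hu : u ∈ Λ)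
    (hn : (sk b u).length < n) : u ∈ TT b n Λ := ⟨subset_UU _ _ (Or.inl hu), hn⟩

open Classical in
/-- `0` if the word begins with `b`, otherwise `1` -/
noncomputable def zL (b : α) (u : List α) : ℕ := if ∃ t, u = [b] ++ t then 0 else 1

open Classical in
/-- `0` if the word ends with `b`, otherwise `1` -/
noncomputable def zR (b : α) (u : List α) : ℕ := if ∃ t, u = t ++ [b] then 0 else 1

theorem zL_le (b : α) (u : List α) : zL b u ≤ 1 := by unfold zL; split_ifs <;> simp

theorem zR_le (b : α) (u : List α) : zR b u ≤ 1 := by unfold zR; split_ifs <;> simp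

theorem zL_pos {b : α} {u : List α} (h : ∃ t, u = [b] ++ t) : zL b u = 0 := if_pos h

theorem zR_pos {b : α} {u : List α} (h : ∃ t, u = t ++ [b]) : zR b u = 0 := if_pos h

theorem zL_neg {b : α} {u : List α} (h : ¬ ∃ t, u = [b] ++ t) : zL b u = 1 := if_neg h

theorem zR_neg {b : α} {u : List α} (h : ¬ ∃ t, u = t ++ [b]) : zR b u = 1 := if_neg h

theorem zL_append {b : α} {u : List α} (hu : u ≠ []) (x : List α) : zL b (u ++ x) = zL b u := by
  have h : (∃ t, u ++ x = [b] ++ t) ↔ ∃ t, u = [b] ++ t := by
    obtain ⟨d, l, rfl⟩ := List.exists_cons_of_ne_nil hu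
    constructor
    · rintro ⟨t, ht⟩
      simp only [List.cons_append, List.nil_append, List.cons.injEq] at ht
      exact ⟨l, by rw [ht.1]; rfl⟩
    · rintro ⟨t, ht⟩
      simp only [List.cons_append, List.nil_append, List.cons.injEq] at ht
      exact ⟨l ++ x, by rw [ht.1]; rfl⟩
  unfold zL
  rw [h]

theorem zR_append {b : α} {u : List α} (hu : u ≠ []) (x : List α) : zR b (x ++ u) = zR b u := by
  have h : (∃ t, x ++ u = t ++ [b]) ↔ ∃ t, u = t ++ [b] := by
    constructor
    · rintro ⟨t, ht⟩
      exact ends_of_append hu ht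
    · rintro ⟨t, ht⟩
      exact ⟨x ++ t, by rw [ht, List.append_assoc]⟩
  unfold zR
  rw [h]

/-- the words with skeletons of length `< n` -/
def Ln (w : List α) (b : α) (n : ℕ) : Set (List α) := {u | Reach w u ∧ (sk b u).length < n}

/-- the sets of the iteration -/
def Lam (w : List α) (b : α) (n : ℕ) : ℕ → Set (List α)
  | 0 => TT b (n + 1) (rest b (n + 1) (Ln w b n ∪ {w}))
  | k + 1 => TT b (n + 1) (Lam w b n k)

theorem Lam_short {w : List α} {b : α} {n k : ℕ} {u : List α} (h : u ∈ Lam w b n k) :
    (sk b u).length < n + 1 := by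
  cases k with
  | zero => exact h.2
  | succ k => exact h.2

theorem Lam_mono {w : List α} {b : α} {n k k' : ℕ} (hk : k ≤ k') {u : List α}
    (h : u ∈ Lam w b n k) : u ∈ Lam w b n k' := by
  induction hk with
  | refl => exact h
  | step _ ih => exact subset_TT ih (Lam_short ih)

theorem Lam_right {w : List α} {b : α} {n k : ℕ} {t : List α} {j : ℕ}
    (h : t ++ [b] ∈ Lam w b n k) : t ++ [b] ++ List.replicate j b ∈ Lam w b n k := by
  have hs : sk b (t ++ [b] ++ List.replicate j b) = sk b (t ++ [b]) := by
    rw [sk_append, sk_replicate, List.append_nil]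
  cases k with
  | zero => exact ⟨UU_right h.1, by rw [hs]; exact h.2⟩
  | succ k => exact ⟨UU_right h.1, by rw [hs]; exact h.2⟩

theorem Lam_left {w : List α} {b : α} {n k : ℕ} {t : List α} {j : ℕ}
    (h : [b] ++ t ∈ Lam w b n k) : List.replicate j b ++ ([b] ++ t) ∈ Lam w b n k := by
  have hs : sk b (List.replicate j b ++ ([b] ++ t)) = sk b ([b] ++ t) := by
    rw [sk_append, sk_replicate, List.nil_append]
  cases k with
  | zero => exact ⟨UU_left h.1, by rw [hs]; exact h.2⟩
  | succ k => exact ⟨UU_left h.1, by rw [hs]; exact h.2⟩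

theorem Lam_step {w : List α} {b : α} {n k : ℕ} {u v : List α} (h : u ∈ Lam w b n k)
    (hs : Step u v) (hv : (sk b v).length < n + 1) : v ∈ Lam w b n (k + 1) :=
  ⟨subset_UU _ _ (Or.inr ⟨u, h, hs⟩), hv⟩

theorem Lam_complete {w : List α} {b : α} {n : ℕ} {u : List α} (hu : Reach w u)
    (hn : (sk b u).length < n + 1) : ∀ k, 2 ≤ k + zL b u + zR b u → u ∈ Lam w b n k := by
  induction hu with
  | refl =>
    intro k _
    refine Lam_mono (Nat.zero_le k) ?_
    exact subset_TT ⟨Or.inr rfl, hn⟩ hn
  | @tail u v hu hs ih =>
    have hlen : (sk b u).length ≤ (sk b v).length := by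
      cases hs with
      | suf p x y => rw [sk_append]; simp
      | pre q x y => rw [sk_append b x]; simp
    by_cases hun : (sk b u).length < n
    · intro k _
      refine Lam_mono (Nat.zero_le k) ?_
      refine ⟨subset_UU _ _ (Or.inr ⟨u, ⟨Or.inl ⟨hu, hun⟩, by omega⟩, hs⟩), hn⟩
    · have ih' := ih (by omega)
      intro k hk
      have hs0 := hs
      cases hs with
      | suf p x y =>
        have hx : sk b x = [] := by
          rw [sk_append] at hlen hn
          rw [List.length_append] at hn
          exact List.eq_nil_of_length_eq_zero (by omega)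
        have hxr := eq_replicate_of_sk hx
        obtain ⟨u, hu'⟩ : ∃ u, u = p ++ y ++ x ++ y := ⟨_, rfl⟩
        have hune : x.length ≠ 0 → u ≠ [] := by
          intro hj h0
          apply hj
          rw [hu'] at h0
          simp only [List.append_eq_nil_iff] at h0
          rw [h0.1.2]
          rfl
        rw [← hu'] at ih' hs0 hk hn ⊢
        by_cases hj : x.length = 0
        · have hx0 : x = [] := List.eq_nil_of_length_eq_zero hj
          rw [hx0, List.append_nil] at hk ⊢
          exact ih' k hk
        · obtain ⟨j, hj'⟩ := Nat.exists_eq_succ_of_ne_zero hj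
          have hx2 : x = List.replicate j b ++ [b] := by
            rw [hj', List.replicate_succ'] at hxr
            exact hxr
          have hend : ∃ t, u ++ x = t ++ [b] :=
            ⟨u ++ List.replicate j b, by rw [hx2, List.append_assoc]⟩
          rw [zR_pos hend, zL_append (hune hj)] at hk
          by_cases he : ∃ t, u = t ++ [b]
          · rw [zR_pos he] at ih'
            have h1 := ih' k hk
            obtain ⟨t, ht⟩ := he
            rw [hxr]
            rw [ht] at h1 ⊢
            exact Lam_right h1
          · rw [zR_neg he] at ih'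
            have hz := zL_le b u
            obtain ⟨k', rfl⟩ := Nat.exists_eq_add_of_le (by omega : 1 ≤ k)
            rw [add_comm 1 k']
            exact Lam_step (ih' k' (by omega)) hs0 hn
      | pre q x y =>
        have hx : sk b x = [] := by
          rw [sk_append b x] at hlen hn
          rw [List.length_append] at hn
          exact List.eq_nil_of_length_eq_zero (by omega)
        have hxr := eq_replicate_of_sk hx
        obtain ⟨u, hu'⟩ : ∃ u, u = y ++ x ++ y ++ q := ⟨_, rfl⟩
        have hune : x.length ≠ 0 → u ≠ [] := by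
          intro hj h0
          apply hj
          rw [hu'] at h0
          simp only [List.append_eq_nil_iff] at h0
          rw [h0.1.1.2]
          rfl
        rw [← hu'] at ih' hs0 hk hn ⊢
        by_cases hj : x.length = 0
        · have hx0 : x = [] := List.eq_nil_of_length_eq_zero hj
          rw [hx0, List.nil_append] at hk ⊢
          exact ih' k hk
        · obtain ⟨j, hj'⟩ := Nat.exists_eq_succ_of_ne_zero hj
          have hx2 : x = [b] ++ List.replicate j b := by
            rw [hj', List.replicate_succ] at hxr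
            exact hxr
          have hend : ∃ t, x ++ u = [b] ++ t :=
            ⟨List.replicate j b ++ u, by rw [hx2, List.append_assoc]⟩
          rw [zL_pos hend, zR_append (hune hj)] at hk
          by_cases he : ∃ t, u = [b] ++ t
          · rw [zL_pos he] at ih'
            have h1 := ih' k hk
            obtain ⟨t, ht⟩ := he
            rw [hxr]
            rw [ht] at h1 ⊢
            exact Lam_left h1
          · rw [zL_neg he] at ih'
            have hz := zR_le b u
            obtain ⟨k', rfl⟩ := Nat.exists_eq_add_of_le (by omega : 1 ≤ k)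
            rw [add_comm 1 k']
            exact Lam_step (ih' k' (by omega)) hs0 hn

theorem nice_singleton (b : α) (w : List α) : Nice b {w} := by
  intro s hs M _ _ h
  obtain ⟨μ, hμ⟩ := exists_W b w
  by_cases hsw : s = w.filter fun a => !decide (a = b)
  · subst hsw
    have e : {m : M | W b (w.filter fun a => !decide (a = b)) (fun i => h i m) ∈
        ({w} : Set (List α))} =
        ⋂ i : Fin ((w.filter fun a => !decide (a = b)).length + 1),
          {m : M | 0 + h i m = μ i + (0 : M →+ ℕ) m} := by
      ext m
      simp only [Set.mem_setOf_eq, Set.mem_singleton_iff, Set.mem_iInter, zero_add,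
        AddMonoidHom.zero_apply, add_zero]
      constructor
      · intro h1 i
        rw [← hμ] at h1
        have h2 := filter_W b (w.filter fun a => !decide (a = b)) μ hs
        rw [h2] at h1
        exact (W_inj b _ hs hs h1).2 i (Nat.lt_succ_iff.1 i.2)
      · intro h1
        rw [← hμ]
        have h2 := filter_W b (w.filter fun a => !decide (a = b)) μ hs
        rw [h2]
        apply W_congr
        intro i hi
        exact h1 ⟨i, Nat.lt_succ_of_le hi⟩
    rw [e]
    exact IsSemilinearSet.iInter fun i => isSemilinearSet_setOfPred_eq 0 _ _ _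
  · have e : {m : M | W b s (fun i => h i m) ∈ ({w} : Set (List α))} = ∅ := by
      ext m
      simp only [Set.mem_setOf_eq, Set.mem_singleton_iff, Set.mem_empty_iff_false, iff_false]
      intro h1
      apply hsw
      rw [← h1, filter_W b s _ hs]
    rw [e]
    exact IsSemilinearSet.empty

theorem nice_Ln (w : List α) (b : α) (n : ℕ) : Nice b (Ln w b n) := by
  induction n with
  | zero =>
    have : Ln w b 0 = rest b 0 Set.univ := by
      ext u
      simp [Ln, rest]
    rw [this]
    exact nice_rest (nice_univ b)
  | succ n ih =>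
    have h0 : Nice b (rest b (n + 1) (Ln w b n ∪ {w})) :=
      nice_rest (nice_union ih (nice_singleton b w))
    have hk : ∀ k, Nice b (Lam w b n k) := by
      intro k
      induction k with
      | zero => exact nice_TT h0
      | succ k ihk => exact nice_TT ihk
    have hsound : ∀ k, Lam w b n k ⊆ {u | Reach w u ∧ (sk b u).length < n + 1} := by
      intro k
      induction k with
      | zero =>
        refine TT_sound ?_
        rintro u ⟨hu | hu, -⟩
        · exact hu.1
        · rw [Set.mem_singleton_iff.1 hu]
          exact Relation.ReflTransGen.refl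
      | succ k ihk => exact TT_sound fun u hu => (ihk hu).1
    have e : Ln w b (n + 1) = Lam w b n 2 := by
      apply Set.Subset.antisymm
      · rintro u ⟨hu, hn⟩
        exact Lam_complete hu hn 2 (by omega)
      · exact hsound 2
    rw [e]
    exact hk 2

/-! ## the Parikh image -/

/-- the linear part of the Parikh map on the block vectors -/
def parF (b : α) (D : ℕ) : (Fin D → ℕ) →+ (α → ℕ) where
  toFun m := fun a => if a = b then ∑ i, m i else 0
  map_zero' := by
    funext a
    simp
  map_add' := by
    intro x y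
    funext a
    by_cases h : a = b
    · simp [h, Finset.sum_add_distrib]
    · simp [h]

theorem parikh_W (b : α) (s : List α) (hs : ∀ a ∈ s, a ≠ b) (m : Fin (s.length + 1) → ℕ) :
    parikh (W b s (fun i => exH (s.length + 1) i m)) = parikh s + parF b (s.length + 1) m := by
  funext a
  show (W b s (fun i => exH (s.length + 1) i m)).count a = s.count a +
    (if a = b then ∑ i, m i else 0)
  rw [count_W b s _ hs]
  by_cases h : a = b
  · subst h
    have h0 : s.count a = 0 := List.count_eq_zero.2 fun h => hs a h rfl
    rw [if_pos rfl, if_pos rfl, h0, zero_add, Finset.sum_range]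
    exact Finset.sum_congr rfl fun i _ => exH_apply i.2 m
  · rw [if_neg h, if_neg h, add_zero]

theorem sum_count_eq [Fintype α] (s : List α) : ∑ a, s.count a = s.length := by
  have := Multiset.sum_count_eq_card (s := (Finset.univ : Finset α)) (m := (s : Multiset α))
    (fun a _ => Finset.mem_univ a)
  simpa using this

open Pointwise in
theorem strip_semilinear [Fintype α] (w : List α) (b : α) (C : ℕ) :
    IsSemilinearSet {v ∈ PI w | ∀ a, a ≠ b → v a ≤ C} := by
  let S : Set (List α) := {s | (∀ a ∈ s, a ≠ b) ∧ ∀ a, s.count a ≤ C}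
  have hlen : ∀ s ∈ S, s.length ≤ Fintype.card α * C := by
    rintro s ⟨-, h⟩
    rw [← sum_count_eq]
    refine (Finset.sum_le_card_nsmul _ _ C fun a _ => h a).trans ?_
    simp
  have hS : S.Finite := by
    refine (List.finite_length_le α (Fintype.card α * C)).subset ?_
    intro s hs
    exact hlen s hs
  have e : {v ∈ PI w | ∀ a, a ≠ b → v a ≤ C} = ⋃ s ∈ S,
      (parikh s +ᵥ (parF b (s.length + 1)) '' {m : Fin (s.length + 1) → ℕ |
        W b s (fun i => exH (s.length + 1) i m) ∈ Ln w b (Fintype.card α * C + 1)}) := by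
    ext v
    simp only [Set.mem_setOf_eq, Set.mem_iUnion, exists_prop]
    constructor
    · rintro ⟨⟨u, hu, rfl⟩, hv⟩
      obtain ⟨μ, hμ⟩ := exists_W b u
      have hsb : ∀ a ∈ sk b u, a ≠ b := by
        intro a ha
        have := List.of_mem_filter ha
        simpa using this
      have hcount : ∀ a, (sk b u).count a ≤ C := by
        intro a
        by_cases hab : a = b
        · subst hab
          rw [List.count_eq_zero.2 fun h => hsb a h rfl]
          exact Nat.zero_le _
        · exact (List.Sublist.count_le a (List.filter_sublist)).trans (hv a hab)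
      have hsS : sk b u ∈ S := ⟨hsb, hcount⟩
      refine ⟨sk b u, hsS, ?_⟩
      have hW : W b (sk b u) (fun i => exH ((sk b u).length + 1) i (fun j => μ j)) = u := by
        conv_rhs => rw [← hμ]
        apply W_congr
        intro i hi
        rw [exH_apply (Nat.lt_succ_of_le hi)]
      rw [Set.mem_vadd_set]
      refine ⟨parF b _ (fun j => μ j), ⟨fun j => μ j, ?_, rfl⟩, ?_⟩
      · show W b (sk b u) _ ∈ Ln w b _
        rw [hW]
        exact ⟨hu, Nat.lt_succ_of_le (hlen _ hsS)⟩
      · rw [vadd_eq_add, ← parikh_W b _ hsb, hW]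
    · rintro ⟨s, hs, hv⟩
      rw [Set.mem_vadd_set] at hv
      obtain ⟨_, ⟨m, hm, rfl⟩, rfl⟩ := hv
      rw [vadd_eq_add, ← parikh_W b _ hs.1]
      refine ⟨⟨_, hm.1, rfl⟩, ?_⟩
      intro a hab
      show (W b s _).count a ≤ C
      rw [count_W b s _ hs.1, if_neg hab]
      exact hs.2 a
  rw [e]
  refine IsSemilinearSet.biUnion hS fun s hs => ?_
  refine IsSemilinearSet.vadd _ (IsSemilinearSet.image ?_ _)
  exact nice_Ln w b _ s hs.1 (Fin (s.length + 1) → ℕ) (fun i => exH (s.length + 1) i)

end Pool.Agent.PSC
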